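import Mathlib

/-!
Analytic sets have the Baire property.
-/

set_option autoImplicit false

open Topology Set Filter TopologicalSpace MeasureTheory

namespace Pool.Agent.Lib.MP_2602dd_lc

section BP

variable {Z : Type*} [TopologicalSpace Z]

/-- The set of points at which `A` is locally nonmeagre. -/
def nm (A : Set Z) : Set Z := {z | ∀ U : Set Z, IsOpen U → z ∈ U → ¬ IsMeagre (A ∩ U)}

theorem isClosed_nm (A : Set Z) : IsClosed (nm A) := by
  rw [← isOpen_compl_iff, isOpen_iff_forall_mem_open]
  intro z hz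
  simp only [nm, mem_compl_iff, mem_ofPred_eq, not_forall, not_not] at hz
  obtain ⟨U, hU, hzU, hm⟩ := hz
  refine ⟨U, ?_, hU, hzU⟩
  intro w hw
  simp only [nm, mem_compl_iff, mem_ofPred_eq, not_forall, not_not]
  exact ⟨U, hU, hw, hm⟩

theorem nm_subset_closure (A : Set Z) : nm A ⊆ closure A := by
  intro z hz
  rw [mem_closure_iff]
  intro U hU hzU
  by_contra hne
  rw [not_nonempty_iff_eq_empty, inter_comm] at hne
  apply hz U hU hzU
  rw [hne]
  exact IsMeagre.empty

theorem isMeagre_diff_nm [SecondCountableTopology Z] (A : Set Z) : IsMeagre (A \ nm A) := by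
  have hb := isBasis_countableBasis Z
  have h1 : A \ nm A ⊆ ⋃ V ∈ {V ∈ countableBasis Z | IsMeagre (A ∩ V)}, A ∩ V := by
    rintro z ⟨hzA, hz⟩
    simp only [nm, mem_ofPred_eq, not_forall, not_not] at hz
    obtain ⟨U, hU, hzU, hm⟩ := hz
    obtain ⟨V, hV, hzV, hVU⟩ := hb.exists_subset_of_mem_open hzU hU
    simp only [mem_iUnion]
    refine ⟨V, ⟨hV, hm.mono (inter_subset_inter_right A hVU)⟩, hzA, hzV⟩
  refine IsMeagre.mono (hs := ?_) h1
  have hc : {V ∈ countableBasis Z | IsMeagre (A ∩ V)}.Countable :=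
    (countable_countableBasis Z).mono (fun V hV => hV.1)
  rw [IsMeagre, compl_iUnion₂, countable_bInter_mem hc]
  intro V hV
  exact hV.2

theorem isMeagre_of_subset_nm {A B : Set Z} (hB : BaireMeasurableSet B) (hBA : B ⊆ nm A)
    (hm : IsMeagre (A ∩ B)) : IsMeagre B := by
  obtain ⟨O, hO, hBO⟩ := hB.residualEq_isOpen
  rw [eventuallyEq_set] at hBO
  have h1 : IsMeagre (A ∩ O) := by
    rw [IsMeagre] at hm ⊢
    filter_upwards [hm, hBO] with z hz1 hz2 hz3
    exact hz1 ⟨hz3.1, hz2.2 hz3.2⟩
  have h2 : ∀ z ∈ O, z ∉ B := fun z hz hzB => hBA hzB O hO hz h1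
  rw [IsMeagre]
  filter_upwards [hBO] with z hz hzB
  exact h2 z (hz.1 hzB) hzB

open PiNat in
theorem baireMeasurableSet_range [SecondCountableTopology Z] [T2Space Z] (f : (ℕ → ℕ) → Z)
    (hf : Continuous f) : BaireMeasurableSet (range f) := by
  classical
  let N : List ℕ → Set (ℕ → ℕ) := fun s => {β | res β s.length = s}
  let A : List ℕ → Set Z := fun s => f '' N s
  let M : List ℕ → Set Z := fun s => nm (A s) \ ⋃ k : ℕ, nm (A (k :: s))
  have hA : ∀ s, A s = ⋃ k : ℕ, A (k :: s) := by
    intro s
    simp only [A, ← image_iUnion]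
    congr 1
    ext β
    simp only [N, mem_ofPred_eq, mem_iUnion, List.length_cons, res_succ, List.cons.injEq]
    constructor
    · intro h
      exact ⟨β s.length, rfl, h⟩
    · rintro ⟨k, _, h⟩
      exact h
  have hM : ∀ s, IsMeagre (M s) := by
    intro s
    apply isMeagre_of_subset_nm (A := A s)
    · exact (isClosed_nm _).isOpen_compl.baireMeasurableSet.of_compl.diff
        (BaireMeasurableSet.iUnion fun k => (isClosed_nm _).isOpen_compl.baireMeasurableSet.of_compl)
    · exact sdiff_subset
    · have h1 : A s ∩ M s ⊆ ⋃ k : ℕ, (A (k :: s) \ nm (A (k :: s))) := by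
        rintro z ⟨hz1, hz2, hz3⟩
        rw [hA s] at hz1
        obtain ⟨k, hk⟩ := mem_iUnion.1 hz1
        refine mem_iUnion.2 ⟨k, hk, fun h => hz3 (mem_iUnion.2 ⟨k, h⟩)⟩
      refine IsMeagre.mono (hs := ?_) h1
      exact isMeagre_iUnion fun k => isMeagre_diff_nm _
  have hrange : range f = A [] := by
    simp only [A, N, List.length_nil, res_zero, ofPred_true, image_univ]
  have hmain : ∀ z ∈ nm (A []), z ∉ ⋃ s, M s → z ∈ range f := by
    intro z hz hzM
    have hnext : ∀ s, z ∈ nm (A s) → ∃ k : ℕ, z ∈ nm (A (k :: s)) := by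
      intro s hs
      by_contra hcon
      push Not at hcon
      apply hzM
      refine mem_iUnion.2 ⟨s, hs, ?_⟩
      simpa using hcon
    choose! nx hnx using hnext
    let L : ℕ → List ℕ := fun n => Nat.rec [] (fun _ s => nx s :: s) n
    have hLs : ∀ n, L (n + 1) = nx (L n) :: L n := fun n => rfl
    have hL : ∀ n, z ∈ nm (A (L n)) := by
      intro n
      induction n with
      | zero => exact hz
      | succ n ih => rw [hLs]; exact hnx _ ih
    let β : ℕ → ℕ := fun n => nx (L n)
    have hres : ∀ n, res β n = L n := by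
      intro n
      induction n with
      | zero => rfl
      | succ n ih => rw [res_succ, hLs, ih]
    by_contra hne
    have hne' : z ≠ f β := fun h => hne ⟨β, h.symm⟩
    obtain ⟨U, W, hU, hW, hzU, hW', hdisj⟩ := t2_separation hne'
    have hpre : IsOpen (f ⁻¹' W) := hW.preimage hf
    obtain ⟨V, hV, hβV, hVW⟩ :=
      (isTopologicalBasis_cylinders (E := fun _ => ℕ)).exists_subset_of_mem_open
        (show β ∈ f ⁻¹' W from hW') hpre
    obtain ⟨x, n, rfl⟩ := hV
    have hcl := nm_subset_closure _ (hL n)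
    rw [mem_closure_iff] at hcl
    obtain ⟨w, hwU, γ, hγ, rfl⟩ := hcl U hU hzU
    have hγ' : γ ∈ cylinder x n := by
      have h1 : cylinder x n = cylinder β n := by
        exact (mem_cylinder_iff_eq.1 hβV).symm
      rw [h1, cylinder_eq_res]
      have h2 : res γ (L n).length = L n := hγ
      have h3 : (L n).length = n := by rw [← hres, res_length]
      rw [h3] at h2
      rw [mem_ofPred_eq, h2, hres]
    exact (disjoint_left.1 hdisj) hwU (hVW hγ')
  have heq : nm (A []) =ᵇ range f := by
    rw [eventuallyEq_set]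
    have h1 : IsMeagre (⋃ s, M s) := isMeagre_iUnion hM
    have h2 := isMeagre_diff_nm (A [])
    rw [IsMeagre] at h1 h2
    filter_upwards [h1, h2] with z hz1 hz2
    constructor
    · intro hz
      exact hmain z hz hz1
    · intro hz
      by_contra hcon
      rw [hrange] at hz
      exact hz2 ⟨hz, hcon⟩
  exact (isClosed_nm _).isOpen_compl.baireMeasurableSet.of_compl.congr heq

theorem analyticSet_baireMeasurable [SecondCountableTopology Z]
    [T2Space Z] {s : Set Z} (hs : AnalyticSet s) : BaireMeasurableSet s := by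
  rw [AnalyticSet] at hs
  rcases hs with rfl | ⟨f, hf, rfl⟩
  · exact isOpen_empty.baireMeasurableSet
  · exact baireMeasurableSet_range f hf

end BP

end Pool.Agent.Lib.MP_2602dd_lc
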