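import Mathlib

/-!
Arithmetic of a Liouville rotation.
-/

set_option autoImplicit false

open Topology Set Filter

namespace Pool.Agent.Lib.MP_2602dd_lc

/-- The standard character of the circle, as a complex number. -/
noncomputable def chi (t : UnitAddCircle) : ℂ := (AddCircle.toCircle t : ℂ)

theorem chi_zero : chi 0 = 1 := by simp [chi]

theorem chi_add (s t : UnitAddCircle) : chi (s + t) = chi s * chi t := by
  simp [chi, AddCircle.toCircle_add]

theorem norm_chi (t : UnitAddCircle) : ‖chi t‖ = 1 := Circle.norm_coe _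

theorem continuous_chi : Continuous chi :=
  continuous_subtype_val.comp AddCircle.continuous_toCircle

theorem chi_coe (r : ℝ) : chi (r : UnitAddCircle) = Complex.exp (Complex.I * ((2 * Real.pi * r : ℝ))) := by
  rw [chi, AddCircle.toCircle_apply_mk, Circle.coe_exp]
  congr 1
  push_cast
  ring

theorem chi_nsmul (n : ℕ) (t : UnitAddCircle) : chi (n • t) = chi t ^ n := by
  simp [chi, AddCircle.toCircle_nsmul]

theorem chi_zsmul (n : ℤ) (t : UnitAddCircle) : chi (n • t) = chi t ^ n := by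
  simp [chi, AddCircle.toCircle_zsmul]

theorem chi_zsmul_eq_fourier (n : ℤ) (t : UnitAddCircle) : chi (n • t) = fourier n t := by
  simp [chi]

theorem norm_chi_coe_sub_one_le (r : ℝ) : ‖chi (r : UnitAddCircle) - 1‖ ≤ 2 * Real.pi * |r| := by
  rw [chi_coe]
  refine (Real.norm_exp_I_mul_ofReal_sub_one_le).trans ?_
  rw [Real.norm_eq_abs, abs_mul, abs_of_pos Real.two_pi_pos]

theorem norm_chi_sub_one_le (t : UnitAddCircle) : ‖chi t - 1‖ ≤ 2 * Real.pi * ‖t‖ := by
  induction t using QuotientAddGroup.induction_on with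
  | H r =>
    have h1 : ((r : ℝ) : UnitAddCircle) = ((r - round r : ℝ) : UnitAddCircle) := by
      rw [AddCircle.coe_sub]
      have : ((round r : ℝ) : UnitAddCircle) = 0 :=
        (AddCircle.coe_eq_zero_iff (1 : ℝ)).2 ⟨round r, by simp⟩
      rw [this, sub_zero]
    have h2 : ‖((r : ℝ) : UnitAddCircle)‖ = |r - round r| := by
      exact UnitAddCircle.norm_eq
    have h3 := norm_chi_coe_sub_one_le (r - round r)
    rw [← h1] at h3
    calc ‖chi ((r : ℝ) : UnitAddCircle) - 1‖ ≤ 2 * Real.pi * |r - round r| := h3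
      _ = _ := by rw [← h2]

theorem coe_nat_eq_zero (n : ℕ) : ((n : ℝ) : UnitAddCircle) = 0 :=
  (AddCircle.coe_eq_zero_iff (1 : ℝ)).2 ⟨n, by simp⟩

theorem chi_coe_half : chi ((1 / 2 : ℝ) : UnitAddCircle) = -1 := by
  rw [chi_coe]
  have : Complex.I * ((2 * Real.pi * (1 / 2) : ℝ)) = Real.pi * Complex.I := by
    push_cast; ring
  rw [this, Complex.exp_pi_mul_I]

/-- The data of a Liouville rotation. -/
structure LData (α : UnitAddCircle) (q n : ℕ → ℕ) (C : ℝ) : Prop where
  smooth : ∀ m : ℕ, Summable (fun i => ‖chi (q i • α) - 1‖ * (q i : ℝ) ^ m)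
  irr : ∀ l : ℤ, l ≠ 0 → chi (l • α) ≠ 1
  qtop : Tendsto q atTop atTop
  nsm : Tendsto (fun k => ‖n k • α‖) atTop (𝓝 0)
  main : ∀ i k, ‖chi (q i • (n k • α)) - (if i = k then -1 else 1)‖ ≤ C * (1 / 2) ^ k * (1 / 2) ^ i

open LiouvilleNumber Nat

theorem nsmul_coe (n : ℕ) (r : ℝ) : n • (r : UnitAddCircle) = ((n * r : ℝ) : UnitAddCircle) := by
  rw [← nsmul_eq_mul, AddCircle.coe_nsmul]

theorem norm_coe_le (r : ℝ) : ‖(r : UnitAddCircle)‖ ≤ |r| := by
  rw [UnitAddCircle.norm_eq]
  simpa using round_le r 0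

/-- Multiples of the Liouville number modulo one. -/
theorem nsmul_liouville (c j : ℕ) (h : 2 ^ j ! ∣ c) :
    c • ((liouvilleNumber 2 : ℝ) : UnitAddCircle) =
      ((c * remainder 2 j : ℝ) : UnitAddCircle) := by
  obtain ⟨d, rfl⟩ := h
  obtain ⟨p, hp⟩ := partialSum_eq_rat (m := 2) (by norm_num) j
  rw [nsmul_coe, ← partialSum_add_remainder (by norm_num : (1 : ℝ) < 2) j, mul_add,
    AddCircle.coe_add]
  have h1 : ((2 ^ j ! * d : ℕ) : ℝ) * partialSum 2 j = ((d * p : ℕ) : ℝ) := by
    push_cast at hp ⊢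
    rw [hp]
    field_simp
  rw [h1, coe_nat_eq_zero, zero_add]

theorem remainder_le (j : ℕ) : remainder 2 j ≤ 2 / 2 ^ (j + 1)! := by
  have h := (remainder_lt' j (m := 2) (by norm_num)).le
  refine h.trans (le_of_eq ?_)
  norm_num
  ring

theorem remainder_nonneg (j : ℕ) : 0 ≤ remainder 2 j := (remainder_pos (by norm_num) j).le

theorem remainder_split (j : ℕ) : remainder 2 j = 1 / 2 ^ (j + 1)! + remainder 2 (j + 1) := by
  have h1 := partialSum_add_remainder (by norm_num : (1 : ℝ) < 2) j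
  have h2 := partialSum_add_remainder (by norm_num : (1 : ℝ) < 2) (j + 1)
  rw [partialSum_succ] at h2
  linarith

theorem pow_bound {a b c : ℕ} (h : a + c ≤ b) : (2 : ℝ) ^ a / 2 ^ b ≤ (1 / 2) ^ c := by
  rw [div_le_iff₀ (by positivity), one_div, inv_pow, inv_mul_eq_div, le_div_iff₀ (by positivity),
    ← pow_add]
  exact pow_le_pow_right₀ (by norm_num) h

/-- The frequencies. -/
def qq (i : ℕ) : ℕ := 2 ^ (i + 2)!

/-- The rigidity times. -/
def nn (k : ℕ) : ℕ := 2 ^ ((k + 3)! - (k + 2)! - 1)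

theorem fac_succ (k : ℕ) : (k + 3)! = (k + 3) * (k + 2)! := Nat.factorial_succ (k + 2)

theorem fac_ge (k : ℕ) : k + 2 ≤ (k + 2)! := Nat.self_le_factorial _

theorem two_mul_fac_lt (k : ℕ) : 2 * (k + 2)! + 1 ≤ (k + 3)! := by
  rw [fac_succ]
  nlinarith [fac_ge k]

theorem exists_ldata : LData ((liouvilleNumber 2 : ℝ) : UnitAddCircle) qq nn (4 * Real.pi) := by
  have hpi := Real.pi_pos
  have hqα : ∀ i, ‖chi (qq i • ((liouvilleNumber 2 : ℝ) : UnitAddCircle)) - 1‖ ≤
      4 * Real.pi * (2 ^ (i + 2)! / 2 ^ (i + 3)!) := by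
    intro i
    rw [nsmul_liouville (qq i) (i + 2) (dvd_refl _)]
    refine (norm_chi_coe_sub_one_le _).trans ?_
    rw [abs_of_nonneg (mul_nonneg (by positivity) (remainder_nonneg _))]
    have h1 := remainder_le (i + 2)
    have h2 : (qq i : ℝ) = 2 ^ (i + 2)! := by simp [qq]
    rw [h2]
    calc 2 * Real.pi * (2 ^ (i + 2)! * remainder 2 (i + 2))
        ≤ 2 * Real.pi * (2 ^ (i + 2)! * (2 / 2 ^ (i + 2 + 1)!)) := by gcongr
      _ = _ := by ring
  have hnα : ∀ k, nn k • ((liouvilleNumber 2 : ℝ) : UnitAddCircle) =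
      ((nn k * remainder 2 (k + 2) : ℝ) : UnitAddCircle) := by
    intro k
    apply nsmul_liouville
    apply pow_dvd_pow
    have := two_mul_fac_lt k
    omega
  have hnn : ∀ k, (nn k : ℝ) = 2 ^ ((k + 3)! - (k + 2)! - 1) := fun k => by simp [nn]
  refine ⟨?_, ?_, ?_, ?_, ?_⟩
  · intro m
    refine Summable.of_norm_bounded_eventually_nat
      (g := fun i => 4 * Real.pi * (1 / 2 : ℝ) ^ i) ?_ ?_
    · exact (summable_geometric_of_lt_one (by norm_num) (by norm_num)).mul_left _
    · filter_upwards [eventually_ge_atTop m] with i hi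
      rw [Real.norm_eq_abs, abs_of_nonneg (by positivity)]
      have h2 : (qq i : ℝ) = 2 ^ (i + 2)! := by simp [qq]
      calc ‖chi (qq i • ((liouvilleNumber 2 : ℝ) : UnitAddCircle)) - 1‖ * (qq i : ℝ) ^ m
          ≤ 4 * Real.pi * (2 ^ (i + 2)! / 2 ^ (i + 3)!) * (2 ^ (i + 2)!) ^ m := by
            rw [h2]; gcongr; exact hqα i
        _ = 4 * Real.pi * (2 ^ ((i + 2)! * (m + 1)) / 2 ^ (i + 3)!) := by
            rw [← pow_mul, mul_add, mul_one, pow_add]; ring
        _ ≤ 4 * Real.pi * (1 / 2 : ℝ) ^ i := by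
            gcongr
            apply pow_bound
            rw [fac_succ]
            nlinarith [fac_ge i]
  · intro l hl h
    have h1 : l • ((liouvilleNumber 2 : ℝ) : UnitAddCircle) = 0 := by
      apply AddCircle.injective_toCircle (T := 1) one_ne_zero
      rw [AddCircle.toCircle_zero]
      exact Subtype.ext h
    rw [← AddCircle.coe_zsmul, AddCircle.coe_eq_zero_iff] at h1
    obtain ⟨m, hm⟩ := h1
    have hirr : Irrational (liouvilleNumber 2) := by
      have := (liouville_liouvilleNumber (m := 2) le_rfl).irrational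
      simpa using this
    apply hirr
    refine ⟨(m : ℚ) / l, ?_⟩
    have hl' : (l : ℝ) ≠ 0 := by exact_mod_cast hl
    push_cast
    rw [div_eq_iff hl']
    simp only [zsmul_eq_mul, mul_one] at hm
    rw [hm, mul_comm]
  · apply tendsto_atTop_mono (f := fun i => i) _ tendsto_id
    intro i
    have h1 : i ≤ (i + 2)! := by have := fac_ge i; omega
    exact h1.trans (Nat.lt_two_pow_self).le
  · have h0 : Tendsto (fun k : ℕ => (1 / 2 : ℝ) ^ k) atTop (𝓝 0) :=
      tendsto_pow_atTop_nhds_zero_of_lt_one (by norm_num) (by norm_num)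
    refine squeeze_zero (fun k => norm_nonneg _) (fun k => ?_) h0
    rw [hnα k]
    have h1 : ‖((nn k * remainder 2 (k + 2) : ℝ) : UnitAddCircle)‖ ≤ |(nn k * remainder 2 (k + 2) : ℝ)| :=
      norm_coe_le _
    refine h1.trans ?_
    rw [abs_of_nonneg (mul_nonneg (by positivity) (remainder_nonneg _)), hnn]
    have h2 := remainder_le (k + 2)
    calc (2 : ℝ) ^ ((k + 3)! - (k + 2)! - 1) * remainder 2 (k + 2)
        ≤ 2 ^ ((k + 3)! - (k + 2)! - 1) * (2 / 2 ^ (k + 2 + 1)!) := by gcongr
      _ = 2 ^ ((k + 3)! - (k + 2)! - 1 + 1) / 2 ^ (k + 2 + 1)! := by rw [pow_succ]; ring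
      _ ≤ (1 / 2) ^ k := by
        apply pow_bound
        have e1 := two_mul_fac_lt k
        have e2 := fac_ge k
        show (k + 3)! - (k + 2)! - 1 + 1 + k ≤ (k + 3)!
        omega
  · intro i k
    have hq2 : (qq i : ℝ) = 2 ^ (i + 2)! := by simp [qq]
    have hassoc : qq i • (nn k • ((liouvilleNumber 2 : ℝ) : UnitAddCircle)) =
        (qq i * nn k) • ((liouvilleNumber 2 : ℝ) : UnitAddCircle) := by
      rw [mul_comm, mul_smul, smul_comm]
    rcases lt_trichotomy i k with hik | hik | hik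
    · rw [if_neg hik.ne, hnα, nsmul_coe]
      refine (norm_chi_coe_sub_one_le _).trans ?_
      rw [abs_of_nonneg (mul_nonneg (by positivity) (mul_nonneg (by positivity)
        (remainder_nonneg _))), hnn, hq2]
      have h2 := remainder_le (k + 2)
      calc 2 * Real.pi * (2 ^ (i + 2)! * (2 ^ ((k + 3)! - (k + 2)! - 1) * remainder 2 (k + 2)))
          ≤ 2 * Real.pi * (2 ^ (i + 2)! * (2 ^ ((k + 3)! - (k + 2)! - 1) *
              (2 / 2 ^ (k + 2 + 1)!))) := by gcongr
        _ = 4 * Real.pi * (2 ^ ((i + 2)! + ((k + 3)! - (k + 2)! - 1)) / 2 ^ (k + 2 + 1)!) := by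
            rw [pow_add]; ring
        _ ≤ 4 * Real.pi * (1 / 2) ^ (k + i) := by
            gcongr
            apply pow_bound
            have e1 := two_mul_fac_lt k
            obtain ⟨k', rfl⟩ : ∃ k', k = k' + 1 := ⟨k - 1, by omega⟩
            have e2 : (i + 2)! ≤ (k' + 2)! := Nat.factorial_le (by omega)
            have e3 : (k' + 1 + 2)! = (k' + 3) * (k' + 2)! := fac_succ k'
            have e4 := fac_ge k'
            have e5 : (k' + 2)! + (k' + 1 + i) ≤ (k' + 1 + 2)! := by
              rw [e3]; nlinarith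
            show (i + 2)! + ((k' + 1 + 3)! - (k' + 1 + 2)! - 1) + (k' + 1 + i) ≤ (k' + 1 + 3)!
            omega
        _ = _ := by rw [pow_add]; ring
    · subst hik
      rw [if_pos rfl, hnα, nsmul_coe]
      have e0 : (qq i : ℝ) * (nn i * remainder 2 (i + 2)) =
          1 / 2 + 2 ^ ((i + 3)! - 1) * remainder 2 (i + 3) := by
        have e1 : (qq i : ℝ) * nn i = 2 ^ ((i + 3)! - 1) := by
          rw [hnn, hq2, ← pow_add]
          congr 1
          have := two_mul_fac_lt i
          omega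
        rw [← mul_assoc, e1, remainder_split (i + 2), mul_add]
        congr 1
        obtain ⟨N, hN⟩ : ∃ N, (i + 3)! = N + 1 := by
          have := two_mul_fac_lt i
          exact ⟨(i + 3)! - 1, by omega⟩
        show (2 : ℝ) ^ ((i + 3)! - 1) * (1 / 2 ^ (i + 3)!) = 1 / 2
        rw [hN, Nat.add_sub_cancel, pow_succ]
        field_simp
      rw [e0, AddCircle.coe_add, chi_add, chi_coe_half]
      have e3 : ∀ z : ℂ, ‖-1 * z - -1‖ = ‖z - 1‖ := fun z => by
        rw [← norm_neg]; congr 1; ring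
      rw [e3]
      refine (norm_chi_coe_sub_one_le _).trans ?_
      rw [abs_of_nonneg (mul_nonneg (by positivity) (remainder_nonneg _))]
      have h2 := remainder_le (i + 3)
      calc 2 * Real.pi * (2 ^ ((i + 3)! - 1) * remainder 2 (i + 3))
          ≤ 2 * Real.pi * (2 ^ ((i + 3)! - 1) * (2 / 2 ^ (i + 3 + 1)!)) := by gcongr
        _ = 4 * Real.pi * (2 ^ ((i + 3)! - 1) / 2 ^ (i + 3 + 1)!) := by ring
        _ ≤ 4 * Real.pi * (1 / 2) ^ (i + i) := by
            gcongr
            apply pow_bound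
            have e4 : (i + 3 + 1)! = (i + 4) * (i + 3)! := Nat.factorial_succ (i + 3)
            have e5 := fac_ge (i + 1)
            rw [e4]
            have e6 : (i + 1 + 2)! = (i + 3)! := rfl
            rw [e6] at e5
            have e7 : (i + 3)! - 1 ≤ (i + 3)! := Nat.sub_le _ _
            nlinarith
        _ = _ := by rw [pow_add]; ring
    · rw [if_neg hik.ne', hassoc, nsmul_liouville (qq i * nn k) (i + 2) (dvd_mul_right _ _)]
      refine (norm_chi_coe_sub_one_le _).trans ?_
      rw [abs_of_nonneg (mul_nonneg (by positivity) (remainder_nonneg _))]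
      push_cast
      rw [hnn, hq2]
      have h2 := remainder_le (i + 2)
      calc 2 * Real.pi * (2 ^ (i + 2)! * 2 ^ ((k + 3)! - (k + 2)! - 1) * remainder 2 (i + 2))
          ≤ 2 * Real.pi * (2 ^ (i + 2)! * 2 ^ ((k + 3)! - (k + 2)! - 1) *
              (2 / 2 ^ (i + 2 + 1)!)) := by gcongr
        _ = 4 * Real.pi * (2 ^ ((i + 2)! + ((k + 3)! - (k + 2)! - 1)) / 2 ^ (i + 2 + 1)!) := by
            rw [pow_add]; ring
        _ ≤ 4 * Real.pi * (1 / 2) ^ (k + i) := by
            gcongr
            apply pow_bound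
            have e2 : (k + 3)! ≤ (i + 2)! := Nat.factorial_le (by omega)
            have e3 : (i + 2 + 1)! = (i + 3) * (i + 2)! := fac_succ i
            have e4 := fac_ge i
            have e5 : (i + 2)! + (i + 2)! + (k + i) ≤ (i + 2 + 1)! := by
              rw [e3]; nlinarith
            omega
        _ = _ := by rw [pow_add]; ring

end Pool.Agent.Lib.MP_2602dd_lc
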