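import Mathlib
import Pool.Agent.Lib.MP_2602dd_lc.Num

/-!
Lacunary trigonometric series on the circle.
-/

set_option autoImplicit false

open Topology Set Filter

namespace Pool.Agent.Lib.MP_2602dd_lc

/-- The trigonometric series with frequencies `q` and coefficients `c`. -/
noncomputable def P (q : ℕ → ℕ) (c : ℕ → ℂ) (t : UnitAddCircle) : ℝ :=
  ∑' i, (c i * chi (q i • t)).re

theorem norm_term (q : ℕ → ℕ) (c : ℕ → ℂ) (t : UnitAddCircle) (i : ℕ) :
    ‖(c i * chi (q i • t)).re‖ ≤ ‖c i‖ := by
  refine (Complex.abs_re_le_norm _).trans ?_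
  rw [norm_mul, norm_chi, mul_one]

theorem summable_term (q : ℕ → ℕ) {c : ℕ → ℂ} (hc : Summable fun i => ‖c i‖)
    (t : UnitAddCircle) : Summable fun i => (c i * chi (q i • t)).re :=
  Summable.of_norm_bounded hc (norm_term q c t)

theorem P_add (q : ℕ → ℕ) {c d : ℕ → ℂ} (hc : Summable fun i => ‖c i‖)
    (hd : Summable fun i => ‖d i‖) (t : UnitAddCircle) :
    P q (fun i => c i + d i) t = P q c t + P q d t := by
  rw [P, P, P, ← (summable_term q hc t).tsum_add (summable_term q hd t)]
  congr 1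
  ext i
  rw [add_mul, Complex.add_re]

theorem P_sub (q : ℕ → ℕ) {c d : ℕ → ℂ} (hc : Summable fun i => ‖c i‖)
    (hd : Summable fun i => ‖d i‖) (t : UnitAddCircle) :
    P q (fun i => c i - d i) t = P q c t - P q d t := by
  rw [P, P, P, ← (summable_term q hc t).tsum_sub (summable_term q hd t)]
  congr 1
  ext i
  rw [sub_mul, Complex.sub_re]

theorem P_shift (q : ℕ → ℕ) (c : ℕ → ℂ) (t s : UnitAddCircle) :
    P q c (t + s) = P q (fun i => c i * chi (q i • s)) t := by
  rw [P, P]
  congr 1
  ext i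
  rw [smul_add, chi_add]
  congr 1
  ring

theorem abs_P_le (q : ℕ → ℕ) {c : ℕ → ℂ} (hc : Summable fun i => ‖c i‖) (t : UnitAddCircle) :
    |P q c t| ≤ ∑' i, ‖c i‖ := by
  rw [P, ← Real.norm_eq_abs]
  exact tsum_of_norm_bounded hc.hasSum (norm_term q c t)

theorem P_single (q : ℕ → ℕ) (k : ℕ) (z : ℂ) (t : UnitAddCircle) :
    P q (fun i => if i = k then z else 0) t = (z * chi (q k • t)).re := by
  rw [P, tsum_eq_single k]
  · simp
  · intro i hi
    simp [hi]

theorem continuous_P (q : ℕ → ℕ) {c : ℕ → ℂ} (hc : Summable fun i => ‖c i‖) :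
    Continuous (P q c) := by
  refine continuous_tsum (fun i => ?_) hc (fun i t => norm_term q c t i)
  exact Complex.continuous_re.comp (continuous_const.mul (continuous_chi.comp (continuous_nsmul _)))

theorem iteratedDeriv_expo (c b : ℂ) (k : ℕ) :
    iteratedDeriv k (fun r : ℝ => c * Complex.exp (b * r)) =
      fun r : ℝ => b ^ k * (c * Complex.exp (b * r)) := by
  induction k with
  | zero => simp
  | succ k ih =>
    rw [iteratedDeriv_succ, ih]
    ext r
    have h1 : HasDerivAt (fun r : ℝ => b * (r : ℂ)) b r := by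
      simpa using (Complex.ofRealCLM.hasDerivAt (x := r)).const_mul b
    have h2 := h1.cexp
    have h3 := (h2.const_mul c).const_mul (b ^ k)
    rw [h3.deriv]
    ring

theorem contDiff_P (q : ℕ → ℕ) {c : ℕ → ℂ}
    (hc : ∀ m : ℕ, Summable fun i => ‖c i‖ * (q i : ℝ) ^ m) :
    ContDiff ℝ (⊤ : ℕ∞) (fun r : ℝ => P q c (r : UnitAddCircle)) := by
  have hc0 : Summable fun i => ‖c i‖ := by simpa using hc 0
  have hterm : ∀ (i : ℕ) (r : ℝ), c i * chi (q i • (r : UnitAddCircle)) =
      c i * Complex.exp ((Complex.I * (2 * Real.pi * q i)) * r) := by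
    intro i r
    rw [nsmul_coe, chi_coe]
    congr 2
    push_cast
    ring
  have hG : ContDiff ℝ (⊤ : ℕ∞)
      (fun r : ℝ => ∑' i, c i * Complex.exp ((Complex.I * (2 * Real.pi * q i)) * r)) := by
    refine contDiff_tsum (v := fun k i => (2 * Real.pi) ^ k * (‖c i‖ * (q i : ℝ) ^ k)) ?_ ?_ ?_
    · intro i
      have h1 : ContDiff ℝ (⊤ : ℕ∞) (fun r : ℝ => (Complex.I * (2 * Real.pi * q i)) * (r : ℂ)) :=
        contDiff_const.mul Complex.ofRealCLM.contDiff
      exact contDiff_const.mul h1.cexp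
    · intro k _
      exact (hc k).mul_left _
    · intro k i r _
      rw [norm_iteratedFDeriv_eq_norm_iteratedDeriv, iteratedDeriv_expo, norm_mul, norm_mul,
        norm_pow]
      have e1 : ‖Complex.exp ((Complex.I * (2 * Real.pi * q i)) * r)‖ = 1 := by
        rw [Complex.norm_exp]
        simp
      have e2 : ‖(Complex.I * (2 * Real.pi * q i) : ℂ)‖ = 2 * Real.pi * q i := by
        rw [norm_mul, Complex.norm_I, one_mul, norm_mul, norm_mul]
        simp [abs_of_pos Real.pi_pos]
      rw [e1, e2, mul_one, mul_pow]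
      apply le_of_eq
      ring
  have hre : ∀ r : ℝ, P q c (r : UnitAddCircle) =
      (∑' i, c i * Complex.exp ((Complex.I * (2 * Real.pi * q i)) * r)).re := by
    intro r
    have hs : Summable fun i => c i * chi (q i • (r : UnitAddCircle)) := by
      refine Summable.of_norm_bounded hc0 (fun i => ?_)
      rw [norm_mul, norm_chi, mul_one]
    rw [P, ← Complex.re_tsum hs]
    congr 1
    exact tsum_congr fun i => hterm i r
  have : (fun r : ℝ => P q c (r : UnitAddCircle)) = fun r : ℝ =>
      Complex.reCLM (∑' i, c i * Complex.exp ((Complex.I * (2 * Real.pi * q i)) * r)) := by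
    ext r
    exact hre r
  rw [this]
  exact Complex.reCLM.contDiff.comp hG

end Pool.Agent.Lib.MP_2602dd_lc
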