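import Mathlib
import Pool.Agent.Lib.MP_2602dd_lc.Ser

/-!
Skew products over a rotation of the circle, on the two-torus.
-/

set_option autoImplicit false

open Topology Set Filter MeasureTheory

namespace Pool.Agent.Lib.MP_2602dd_lc

/-- The two-torus. -/
abbrev TT : Type := Fin 2 → UnitAddCircle

/-- The Haar probability measure of the two-torus. -/
noncomputable def nu : Measure TT := Measure.pi (fun _ : Fin 2 => AddCircle.haarAddCircle)

instance : IsProbabilityMeasure nu := by unfold nu; infer_instance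

/-- The skew product `(s, t) ↦ (s + α, t + h s)`. -/
def sk (α : UnitAddCircle) (h : UnitAddCircle → UnitAddCircle) (p : TT) : TT :=
  ![p 0 + α, p 1 + h (p 0)]

@[simp] theorem sk_zero (α : UnitAddCircle) (h : UnitAddCircle → UnitAddCircle) (p : TT) :
    sk α h p 0 = p 0 + α := rfl

@[simp] theorem sk_one (α : UnitAddCircle) (h : UnitAddCircle → UnitAddCircle) (p : TT) :
    sk α h p 1 = p 1 + h (p 0) := rfl

theorem measurable_sk (α : UnitAddCircle) {h : UnitAddCircle → UnitAddCircle}
    (hh : Measurable h) : Measurable (sk α h) := by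
  have h0 : Measurable (fun p : TT => p 0) := measurable_pi_apply 0
  have h1 : Measurable (fun p : TT => p 1) := measurable_pi_apply 1
  rw [measurable_pi_iff]
  intro i
  fin_cases i
  · exact h0.add_const α
  · exact h1.add (hh.comp h0)

theorem measurePreserving_sk (α : UnitAddCircle) {h : UnitAddCircle → UnitAddCircle}
    (hh : Measurable h) : MeasurePreserving (sk α h) nu nu := by
  have h1 : MeasurePreserving
      (fun p : UnitAddCircle × UnitAddCircle => (p.1 + α, p.2 + h p.1))
      ((AddCircle.haarAddCircle).prod AddCircle.haarAddCircle)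
      ((AddCircle.haarAddCircle).prod AddCircle.haarAddCircle) := by
    refine MeasurePreserving.skew_product (f := fun s => s + α) (g := fun s t => t + h s)
      (measurePreserving_add_right _ α) ?_ ?_
    · exact measurable_snd.add (hh.comp measurable_fst)
    · exact Eventually.of_forall fun s => (measurePreserving_add_right _ (h s)).map_eq
  have h2 : MeasurePreserving (MeasurableEquiv.finTwoArrow (α := UnitAddCircle)) nu
      ((AddCircle.haarAddCircle).prod AddCircle.haarAddCircle) :=
    measurePreserving_finTwoArrow _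
  have h3 : sk α h = (MeasurableEquiv.finTwoArrow (α := UnitAddCircle)).symm ∘
      (fun p : UnitAddCircle × UnitAddCircle => (p.1 + α, p.2 + h p.1)) ∘
      (MeasurableEquiv.finTwoArrow (α := UnitAddCircle)) := by
    ext p i
    fin_cases i <;> rfl
  rw [h3]
  exact (h2.symm _).comp (h1.comp h2)

theorem iterate_sk (α : UnitAddCircle) (h : UnitAddCircle → UnitAddCircle)
    (H : ℕ → UnitAddCircle → UnitAddCircle) (H0 : ∀ s, H 0 s = 0)
    (HS : ∀ n s, H (n + 1) s = H n s + h (s + n • α)) (n : ℕ) (p : TT) :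
    (sk α h)^[n] p = ![p 0 + n • α, p 1 + H n (p 0)] := by
  induction n with
  | zero =>
    ext i
    fin_cases i <;> simp [H0]
  | succ n ih =>
    rw [Function.iterate_succ_apply', ih]
    ext i
    fin_cases i
    · simp [succ_nsmul, add_assoc]
    · simp [HS, add_assoc]

/-- The coefficients of the `n`-th Birkhoff sum of the cocycle with amplitudes `a`. -/
noncomputable def cf (α : UnitAddCircle) (q : ℕ → ℕ) (a : ℕ → ℝ) (n : ℕ) (i : ℕ) : ℂ :=
  a i * (chi (q i • (n • α)) - 1)

theorem norm_pow_sub_one_le {z : ℂ} (hz : ‖z‖ = 1) (n : ℕ) : ‖z ^ n - 1‖ ≤ n * ‖z - 1‖ := by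
  induction n with
  | zero => simp
  | succ n ih =>
    have : z ^ (n + 1) - 1 = z * (z ^ n - 1) + (z - 1) := by ring
    rw [this]
    refine (norm_add_le _ _).trans ?_
    rw [norm_mul, hz, one_mul]
    push_cast
    linarith

section

variable {α : UnitAddCircle} {q n : ℕ → ℕ} {C : ℝ} (hd : LData α q n C)

theorem norm_cf_le (α : UnitAddCircle) (q : ℕ → ℕ) {a : ℕ → ℝ} (ha : ∀ i, |a i| ≤ 1) (m i : ℕ) :
    ‖cf α q a m i‖ ≤ m * ‖chi (q i • α) - 1‖ := by
  have h1 : q i • (m • α) = m • (q i • α) := smul_comm _ _ _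
  rw [cf, norm_mul, h1, chi_nsmul]
  have h2 := norm_pow_sub_one_le (norm_chi (q i • α)) m
  have h3 : ‖(a i : ℂ)‖ ≤ 1 := by rw [Complex.norm_real]; exact ha i
  calc ‖(a i : ℂ)‖ * ‖chi (q i • α) ^ m - 1‖ ≤ 1 * (m * ‖chi (q i • α) - 1‖) := by
        gcongr
    _ = _ := one_mul _

include hd

theorem summable_cf {a : ℕ → ℝ} (ha : ∀ i, |a i| ≤ 1) (m : ℕ) :
    Summable fun i => ‖cf α q a m i‖ := by
  have h0 : Summable fun i => ‖chi (q i • α) - 1‖ := by simpa using hd.smooth 0
  refine Summable.of_nonneg_of_le (fun i => norm_nonneg _) (fun i => norm_cf_le α q ha m i)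
    (h0.mul_left _)

theorem summable_cf_pow {a : ℕ → ℝ} (ha : ∀ i, |a i| ≤ 1) (m : ℕ) :
    Summable fun i => ‖cf α q a 1 i‖ * (q i : ℝ) ^ m := by
  refine Summable.of_nonneg_of_le (fun i => by positivity) (fun i => ?_) (hd.smooth m)
  have := norm_cf_le α q ha 1 i
  rw [Nat.cast_one, one_mul] at this
  gcongr

theorem P_cf_succ {a : ℕ → ℝ} (ha : ∀ i, |a i| ≤ 1) (m : ℕ) (s : UnitAddCircle) :
    P q (cf α q a (m + 1)) s = P q (cf α q a m) s + P q (cf α q a 1) (s + m • α) := by
  rw [P_shift, ← P_add q (summable_cf hd ha m)]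
  · congr 1
    ext i
    simp only [cf]
    rw [one_smul, add_smul, one_smul, smul_add, chi_add]
    ring
  · simpa [norm_chi] using summable_cf hd ha 1

/-- The transformation with amplitudes `a`. -/
noncomputable def TA (α : UnitAddCircle) (q : ℕ → ℕ) (a : ℕ → ℝ) : TT → TT :=
  sk α (fun s => (P q (cf α q a 1) s : UnitAddCircle))

omit hd in
theorem TA_def (α : UnitAddCircle) (q : ℕ → ℕ) (a : ℕ → ℝ) :
    TA α q a = sk α (fun s => (P q (cf α q a 1) s : UnitAddCircle)) := rfl

theorem iterate_TA {a : ℕ → ℝ} (ha : ∀ i, |a i| ≤ 1) (m : ℕ) (p : TT) :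
    (TA α q a)^[m] p = ![p 0 + m • α, p 1 + (P q (cf α q a m) (p 0) : UnitAddCircle)] := by
  refine iterate_sk α _ (fun m s => (P q (cf α q a m) s : UnitAddCircle)) ?_ ?_ m p
  · intro s
    have : cf α q a 0 = fun _ => 0 := by
      ext i; simp [cf, chi_zero]
    simp [this, P]
  · intro m s
    show ((P q (cf α q a (m + 1)) s : ℝ) : UnitAddCircle) = _
    rw [P_cf_succ hd ha, AddCircle.coe_add]

theorem continuous_P_cf {a : ℕ → ℝ} (ha : ∀ i, |a i| ≤ 1) (m : ℕ) :
    Continuous (P q (cf α q a m)) := continuous_P q (summable_cf hd ha m)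

theorem measurePreserving_TA {a : ℕ → ℝ} (ha : ∀ i, |a i| ≤ 1) :
    MeasurePreserving (TA α q a) nu nu := by
  apply measurePreserving_sk
  exact AddCircle.measurable_mk'.comp (continuous_P_cf hd ha 1).measurable

theorem approx {a : ℕ → ℝ} (ha : ∀ i, |a i| ≤ 1) (k : ℕ) (s : UnitAddCircle) :
    |P q (cf α q a (n k)) s + 2 * a k * (chi (q k • s)).re| ≤ 2 * C * (1 / 2) ^ k := by
  have h1 : P q (fun i => if i = k then ((-2 * a k : ℝ) : ℂ) else 0) s =
      - (2 * a k * (chi (q k • s)).re) := by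
    rw [P_single, Complex.re_ofReal_mul]
    ring
  have hs : Summable fun i => ‖(if i = k then ((-2 * a k : ℝ) : ℂ) else 0)‖ := by
    apply summable_of_ne_finset_zero (s := {k})
    intro i hi
    rw [Finset.mem_singleton] at hi
    simp [hi]
  have h2 : P q (cf α q a (n k)) s + 2 * a k * (chi (q k • s)).re =
      P q (fun i => cf α q a (n k) i - (if i = k then ((-2 * a k : ℝ) : ℂ) else 0)) s := by
    rw [P_sub q (summable_cf hd ha _) hs, h1]
    ring
  have hb : ∀ i, ‖cf α q a (n k) i - (if i = k then ((-2 * a k : ℝ) : ℂ) else 0)‖ ≤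
      C * (1 / 2) ^ k * (1 / 2) ^ i := by
    intro i
    have h3 : cf α q a (n k) i - (if i = k then ((-2 * a k : ℝ) : ℂ) else 0) =
        a i * (chi (q i • (n k • α)) - (if i = k then -1 else 1)) := by
      rw [cf]
      by_cases hik : i = k
      · subst hik
        simp only [if_true]
        push_cast
        ring
      · simp [hik]
    rw [h3, norm_mul]
    have h4 : ‖(a i : ℂ)‖ ≤ 1 := by rw [Complex.norm_real]; exact ha i
    calc ‖(a i : ℂ)‖ * ‖chi (q i • (n k • α)) - (if i = k then -1 else 1)‖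
        ≤ 1 * (C * (1 / 2) ^ k * (1 / 2) ^ i) := by
          gcongr
          exact hd.main i k
      _ = _ := one_mul _
  have hg : HasSum (fun i : ℕ => C * (1 / 2) ^ k * (1 / 2 : ℝ) ^ i) (C * (1 / 2) ^ k * 2) := by
    exact (hasSum_geometric_two).mul_left _
  have hsum : Summable fun i => ‖cf α q a (n k) i - (if i = k then ((-2 * a k : ℝ) : ℂ) else 0)‖ :=
    Summable.of_nonneg_of_le (fun i => norm_nonneg _) hb hg.summable
  rw [h2]
  refine (abs_P_le q hsum s).trans ?_
  calc ∑' i, ‖cf α q a (n k) i - (if i = k then ((-2 * a k : ℝ) : ℂ) else 0)‖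
      ≤ ∑' i : ℕ, C * (1 / 2) ^ k * (1 / 2 : ℝ) ^ i := hsum.tsum_le_tsum hb hg.summable
    _ = 2 * C * (1 / 2) ^ k := by rw [hg.tsum_eq]; ring

end

end Pool.Agent.Lib.MP_2602dd_lc
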