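import Mathlib
import Pool.Agent.Lib.MP_2602dd_lc.Skew

/-!
The smooth structure of the two-torus, modelled on the Euclidean plane.
-/

set_option autoImplicit false

open Topology Set Filter MeasureTheory
open scoped Manifold ContDiff

namespace Pool.Agent.Lib.MP_2602dd_lc

/-- The Euclidean plane. -/
abbrev E2 : Type := EuclideanSpace ℝ (Fin 2)

/-- The chart of the torus which misses the two circles through `a`. -/
noncomputable def ch (a : Fin 2 → ℝ) : OpenPartialHomeomorph TT E2 :=
  (OpenPartialHomeomorph.pi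
    (fun i => (AddCircle.openPartialHomeomorphCoe (1 : ℝ) (a i)).symm)).transHomeomorph
    (PiLp.homeomorph 2 (fun _ : Fin 2 => ℝ)).symm

theorem ch_apply (a : Fin 2 → ℝ) (p : TT) (i : Fin 2) :
    ch a p i = (AddCircle.equivIco (1 : ℝ) (a i) (p i) : ℝ) := rfl

theorem ch_symm_apply (a : Fin 2 → ℝ) (y : E2) (i : Fin 2) :
    (ch a).symm y i = ((y i : ℝ) : UnitAddCircle) := rfl

theorem mem_ch_source (a : Fin 2 → ℝ) (p : TT) :
    p ∈ (ch a).source ↔ ∀ i, p i ≠ ((a i : ℝ) : UnitAddCircle) := by
  simp [ch, AddCircle.openPartialHomeomorphCoe]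

theorem mem_ch_target (a : Fin 2 → ℝ) (y : E2) :
    y ∈ (ch a).target ↔ ∀ i, y i ∈ Ioo (a i) (a i + 1) := by
  simp only [ch, OpenPartialHomeomorph.transHomeomorph_target]
  simp [AddCircle.openPartialHomeomorphCoe]
  rfl

theorem exists_rep (p : TT) : ∃ a : Fin 2 → ℝ, p ∈ (ch a).source := by
  have h : ∀ i, ∃ r : ℝ, p i ≠ (r : UnitAddCircle) := by
    intro i
    by_cases h0 : p i = ((0 : ℝ) : UnitAddCircle)
    · refine ⟨1 / 2, ?_⟩
      rw [h0]
      intro h
      have h1 := congrArg chi h
      rw [chi_coe_half, AddCircle.coe_zero, chi_zero] at h1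
      norm_num at h1
    · exact ⟨0, h0⟩
  choose a ha using h
  exact ⟨a, (mem_ch_source a p).2 ha⟩

/-- The charted space structure of the torus. -/
@[instance_reducible] noncomputable def csTT : ChartedSpace E2 TT where
  atlas := range ch
  chartAt p := ch (exists_rep p).choose
  mem_chart_source p := (exists_rep p).choose_spec
  chart_mem_atlas _ := ⟨_, rfl⟩

/-- The one-dimensional coordinate function is smooth away from the cut. -/
theorem contDiffAt_coord (b : ℝ) (r : ℝ) (h : (r : UnitAddCircle) ≠ (b : UnitAddCircle)) :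
    ContDiffAt ℝ ∞ (fun r : ℝ => (AddCircle.equivIco (1 : ℝ) b (r : UnitAddCircle) : ℝ)) r := by
  -- the integer translate
  obtain ⟨m, hm⟩ : ∃ m : ℤ, r - m ∈ Ioo b (b + 1) := by
    have h1 := sub_toIcoDiv_zsmul_mem_Ico (one_pos : (0 : ℝ) < 1) b r
    generalize toIcoDiv (one_pos : (0 : ℝ) < 1) b r = m at h1
    simp only [zsmul_eq_mul, mul_one] at h1
    refine ⟨m, lt_of_le_of_ne h1.1 ?_, h1.2⟩
    intro heq
    apply h
    rw [heq, AddCircle.coe_sub]
    have : ((m : ℝ) : UnitAddCircle) = 0 :=
      (AddCircle.coe_eq_zero_iff (1 : ℝ)).2 ⟨m, by simp⟩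
    rw [this, sub_zero]
  have hev : (fun r : ℝ => (AddCircle.equivIco (1 : ℝ) b (r : UnitAddCircle) : ℝ)) =ᶠ[𝓝 r]
      fun r : ℝ => r - m := by
    have hopen : IsOpen {r : ℝ | r - m ∈ Ioo b (b + 1)} :=
      isOpen_Ioo.preimage (by fun_prop : Continuous fun r : ℝ => r - m)
    filter_upwards [hopen.mem_nhds hm] with s hs
    have h1 : ((s : ℝ) : UnitAddCircle) = ((s - m : ℝ) : UnitAddCircle) := by
      rw [AddCircle.coe_sub]
      have : ((m : ℝ) : UnitAddCircle) = 0 :=
        (AddCircle.coe_eq_zero_iff (1 : ℝ)).2 ⟨m, by simp⟩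
      rw [this, sub_zero]
    rw [h1]
    have h2 := (AddCircle.equivIco (1 : ℝ) b).apply_symm_apply ⟨s - m, Ioo_subset_Ico_self hs⟩
    exact congrArg Subtype.val h2
  exact (contDiffAt_id.sub contDiffAt_const).congr_of_eventuallyEq hev

/-- Smoothness of chart expressions. -/
theorem contDiffAt_ch (b : Fin 2 → ℝ) (L : E2 → Fin 2 → ℝ) (y : E2)
    (hL : ∀ i, ContDiffAt ℝ ∞ (fun y => L y i) y)
    (h : (fun i => ((L y i : ℝ) : UnitAddCircle)) ∈ (ch b).source) :
    ContDiffAt ℝ ∞ (fun y => ch b (fun i => ((L y i : ℝ) : UnitAddCircle))) y := by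
  rw [contDiffAt_euclidean]
  intro i
  have h1 := contDiffAt_coord (b i) (L y i) ((mem_ch_source b _).1 h i)
  exact h1.comp y (hL i)

theorem contDiffAt_coordinate (y : E2) (i : Fin 2) : ContDiffAt ℝ ∞ (fun y : E2 => y i) y :=
  (EuclideanSpace.proj (𝕜 := ℝ) i).contDiff.contDiffAt

theorem isManifoldTT : @IsManifold ℝ _ E2 _ _ E2 _ (𝓡 2) ∞ TT _ csTT := by
  let _ := csTT
  apply isManifold_of_contDiffOn
  rintro e e' ⟨a, rfl⟩ ⟨b, rfl⟩
  simp only [modelWithCornersSelf_coe, modelWithCornersSelf_coe_symm, Function.id_comp,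
    Function.comp_id, preimage_id, range_id, inter_univ]
  intro y hy
  apply ContDiffAt.contDiffWithinAt
  rw [OpenPartialHomeomorph.trans_source] at hy
  have h1 : (ch a).symm y ∈ (ch b).source := hy.2
  exact contDiffAt_ch b (fun y i => y i) y (contDiffAt_coordinate y) h1

/-- A continuous map of the torus with a smooth lift is smooth. -/
theorem contMDiff_of_lift (T : TT → TT) (hT : Continuous T) (L : E2 → Fin 2 → ℝ)
    (hL : ∀ i, ContDiff ℝ ∞ (fun y => L y i))
    (hTL : ∀ y : E2, T (fun i => ((y i : ℝ) : UnitAddCircle)) =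
      fun i => ((L y i : ℝ) : UnitAddCircle)) :
    @ContMDiff ℝ _ E2 _ _ E2 _ (𝓡 2) TT _ csTT E2 _ _ E2 _ (𝓡 2) TT _ csTT ∞ T := by
  let _ := csTT
  have := isManifoldTT
  rw [contMDiff_iff]
  refine ⟨hT, fun x y => ?_⟩
  intro z hz
  apply ContDiffAt.contDiffWithinAt
  obtain ⟨a, ha⟩ : ∃ a, chartAt E2 x = ch a := ⟨_, rfl⟩
  obtain ⟨b, hb⟩ : ∃ b, chartAt E2 y = ch b := ⟨_, rfl⟩
  simp only [mfld_simps, ha, hb] at hz ⊢
  have h1 : ∀ w : E2, T ((ch a).symm w) = fun i => ((L w i : ℝ) : UnitAddCircle) := fun w => hTL w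
  have h2 : (ch b : TT → E2) ∘ T ∘ (ch a).symm =
      fun w => ch b (fun i => ((L w i : ℝ) : UnitAddCircle)) := by
    funext w
    exact congrArg (ch b) (h1 w)
  rw [h2]
  refine contDiffAt_ch b L z (fun i => (hL i).contDiffAt) ?_
  rw [← h1]
  exact hz.2

theorem haar_eq_volume : (volume : Measure UnitAddCircle) = AddCircle.haarAddCircle := by
  rw [AddCircle.volume_eq_smul_haarAddCircle]
  simp

theorem measurable_ch (a : Fin 2 → ℝ) : Measurable (ch a) := by
  have h1 : Measurable fun p : TT => (fun i => (AddCircle.equivIco (1 : ℝ) (a i) (p i) : ℝ)) := by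
    rw [measurable_pi_iff]
    intro i
    have h2 : Measurable fun t : UnitAddCircle => (AddCircle.equivIco (1 : ℝ) (a i) t : ℝ) :=
      measurable_subtype_coe.comp (AddCircle.measurableEquivIco (1 : ℝ) (a i)).measurable
    exact h2.comp (measurable_pi_apply i)
  exact (PiLp.volume_preserving_toLp (Fin 2)).measurable.comp h1

theorem measurePreserving_proj (a : Fin 2 → ℝ) :
    MeasurePreserving (fun (y : Fin 2 → ℝ) (i : Fin 2) => ((y i : ℝ) : UnitAddCircle))
      (volume.restrict (univ.pi fun i => Ioc (a i) (a i + 1))) nu := by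
  have h1 : ∀ i : Fin 2, MeasurePreserving (fun r : ℝ => (r : UnitAddCircle))
      (volume.restrict (Ioc (a i) (a i + 1))) AddCircle.haarAddCircle := by
    intro i
    have := AddCircle.measurePreserving_mk (1 : ℝ) (a i)
    rwa [haar_eq_volume] at this
  have h2 := measurePreserving_pi _ _ h1
  have h3 : (volume : Measure (Fin 2 → ℝ)).restrict (univ.pi fun i => Ioc (a i) (a i + 1)) =
      Measure.pi fun i => (volume : Measure ℝ).restrict (Ioc (a i) (a i + 1)) :=
    Measure.restrict_pi_pi _ _
  rw [h3]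
  exact h2

theorem map_ch (a : Fin 2 → ℝ) :
    Measure.map (ch a) (nu.restrict (ch a).source) = volume.restrict (ch a).target := by
  let pr : (Fin 2 → ℝ) → TT := fun y i => ((y i : ℝ) : UnitAddCircle)
  have hsrc : MeasurableSet (ch a).source := (ch a).open_source.measurableSet
  have hbox : MeasurableSet (univ.pi fun i => Ioc (a i) (a i + 1)) :=
    MeasurableSet.univ_pi fun i => measurableSet_Ioc
  have h1 := (measurePreserving_proj a).restrict_preimage hsrc
  rw [Measure.restrict_restrict ((measurePreserving_proj a).measurable hsrc)] at h1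
  have hset : (fun (y : Fin 2 → ℝ) (i : Fin 2) => ((y i : ℝ) : UnitAddCircle)) ⁻¹' (ch a).source ∩
      (univ.pi fun i => Ioc (a i) (a i + 1)) = univ.pi fun i => Ioo (a i) (a i + 1) := by
    ext y
    simp only [mem_inter_iff, mem_preimage, mem_ch_source, mem_univ_pi]
    constructor
    · rintro ⟨h2, h3⟩ i
      refine ⟨(h3 i).1, lt_of_le_of_ne (h3 i).2 ?_⟩
      intro heq
      apply h2 i
      rw [heq, AddCircle.coe_add]
      simp
    · intro h2
      refine ⟨fun i => ?_, fun i => Ioo_subset_Ioc_self (h2 i)⟩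
      exact (AddCircle.openPartialHomeomorphCoe (1 : ℝ) (a i)).map_source (h2 i)
  rw [hset] at h1
  rw [← h1.map_eq, Measure.map_map (measurable_ch a) h1.measurable]
  have h2 : MeasurePreserving (WithLp.toLp 2 : (Fin 2 → ℝ) → E2)
      (volume.restrict (WithLp.toLp 2 ⁻¹' (ch a).target)) (volume.restrict (ch a).target) :=
    (PiLp.volume_preserving_toLp (Fin 2)).restrict_preimage (ch a).open_target.measurableSet
  have h3 : (WithLp.toLp 2 : (Fin 2 → ℝ) → E2) ⁻¹' (ch a).target =
      univ.pi fun i => Ioo (a i) (a i + 1) := by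
    ext y
    simp only [mem_preimage, mem_ch_target, mem_univ_pi]
  rw [h3] at h2
  rw [← h2.map_eq]
  apply Measure.map_congr
  have hbox' : MeasurableSet (univ.pi fun i => Ioo (a i) (a i + 1)) :=
    MeasurableSet.univ_pi fun i => measurableSet_Ioo
  filter_upwards [ae_restrict_mem hbox'] with y hy
  have h4 : (WithLp.toLp 2 y : E2) ∈ (ch a).target := by
    rw [mem_ch_target]
    simpa using hy
  exact (ch a).right_inv h4

theorem density_TT (e : OpenPartialHomeomorph TT E2) (he : e ∈ csTT.atlas) :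
    ∃ ρ : E2 → ℝ, ContDiffOn ℝ ∞ ρ e.target ∧ (∀ y ∈ e.target, 0 < ρ y) ∧
      Measure.map (⇑e) (nu.restrict e.source) =
        (volume.withDensity (fun y => ENNReal.ofReal (ρ y))).restrict e.target := by
  obtain ⟨a, rfl⟩ := he
  refine ⟨fun _ => 1, contDiffOn_const, fun _ _ => one_pos, ?_⟩
  rw [map_ch]
  simp

section Diffeo

variable {r : ℝ} {q n : ℕ → ℕ} {C : ℝ}

theorem continuous_sk (α : UnitAddCircle) {h : UnitAddCircle → UnitAddCircle}
    (hh : Continuous h) : Continuous (sk α h) := by
  have h0 : Continuous (fun p : TT => p 0) := continuous_apply 0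
  have h1 : Continuous (fun p : TT => p 1) := continuous_apply 1
  rw [continuous_pi_iff]
  intro i
  fin_cases i
  · exact h0.add continuous_const
  · exact h1.add (hh.comp h0)

/-- The inverse of a skew product. -/
noncomputable def skInv (α : UnitAddCircle) (h : UnitAddCircle → UnitAddCircle) (p : TT) : TT :=
  ![p 0 - α, p 1 - h (p 0 - α)]

/-- A skew product as an equivalence. -/
noncomputable def skEquiv (α : UnitAddCircle) (h : UnitAddCircle → UnitAddCircle) : TT ≃ TT where
  toFun := sk α h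
  invFun := skInv α h
  left_inv p := by
    ext i
    fin_cases i <;> simp [skInv]
  right_inv p := by
    ext i
    fin_cases i <;> simp [skInv, sk]

theorem continuous_skInv (α : UnitAddCircle) {h : UnitAddCircle → UnitAddCircle}
    (hh : Continuous h) : Continuous (skInv α h) := by
  have h0 : Continuous (fun p : TT => p 0) := continuous_apply 0
  have h1 : Continuous (fun p : TT => p 1) := continuous_apply 1
  rw [continuous_pi_iff]
  intro i
  fin_cases i
  · exact h0.sub continuous_const
  · exact h1.sub (hh.comp (h0.sub continuous_const))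

/-- The skew product with amplitudes `a` as a diffeomorphism. -/
noncomputable def TAdiffeo {a : ℕ → ℝ} (hd : LData (r : UnitAddCircle) q n C)
    (ha : ∀ i, |a i| ≤ 1) :
    @Diffeomorph ℝ _ E2 _ _ E2 _ _ E2 _ E2 _ (𝓡 2) (𝓡 2) TT _ csTT TT _ csTT ∞ :=
  let _ := csTT
  { toEquiv := skEquiv (r : UnitAddCircle)
      (fun s => (P q (cf (r : UnitAddCircle) q a 1) s : UnitAddCircle))
    contMDiff_toFun := by
      have hPc : ContDiff ℝ ∞ (fun t : ℝ => P q (cf (r : UnitAddCircle) q a 1) (t : UnitAddCircle)) :=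
        contDiff_P q (summable_cf_pow hd ha)
      have hc : Continuous fun s : UnitAddCircle =>
          ((P q (cf (r : UnitAddCircle) q a 1) s : ℝ) : UnitAddCircle) :=
        (AddCircle.continuous_mk' 1).comp (continuous_P_cf hd ha 1)
      refine contMDiff_of_lift _ (continuous_sk _ hc)
        (fun y => ![y 0 + r, y 1 + P q (cf (r : UnitAddCircle) q a 1) ((y 0 : ℝ) : UnitAddCircle)])
        ?_ ?_
      · intro i
        have e0 : ContDiff ℝ ∞ (fun y : E2 => y 0) := (EuclideanSpace.proj (𝕜 := ℝ) (0 : Fin 2)).contDiff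
        have e1 : ContDiff ℝ ∞ (fun y : E2 => y 1) := (EuclideanSpace.proj (𝕜 := ℝ) (1 : Fin 2)).contDiff
        fin_cases i
        · exact e0.add contDiff_const
        · exact e1.add (hPc.comp e0)
      · intro y
        ext i
        fin_cases i
        · simp [skEquiv]
        · simp [skEquiv]
    contMDiff_invFun := by
      have hPc : ContDiff ℝ ∞ (fun t : ℝ => P q (cf (r : UnitAddCircle) q a 1) (t : UnitAddCircle)) :=
        contDiff_P q (summable_cf_pow hd ha)
      have hc : Continuous fun s : UnitAddCircle =>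
          ((P q (cf (r : UnitAddCircle) q a 1) s : ℝ) : UnitAddCircle) :=
        (AddCircle.continuous_mk' 1).comp (continuous_P_cf hd ha 1)
      refine contMDiff_of_lift _ (continuous_skInv _ hc)
        (fun y => ![y 0 - r,
          y 1 - P q (cf (r : UnitAddCircle) q a 1) ((y 0 - r : ℝ) : UnitAddCircle)])
        ?_ ?_
      · intro i
        have e0 : ContDiff ℝ ∞ (fun y : E2 => y 0) := (EuclideanSpace.proj (𝕜 := ℝ) (0 : Fin 2)).contDiff
        have e1 : ContDiff ℝ ∞ (fun y : E2 => y 1) := (EuclideanSpace.proj (𝕜 := ℝ) (1 : Fin 2)).contDiff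
        fin_cases i
        · exact e0.sub contDiff_const
        · exact e1.sub (hPc.comp (e0.sub contDiff_const))
      · intro y
        show skInv (r : UnitAddCircle)
          (fun s => (P q (cf (r : UnitAddCircle) q a 1) s : UnitAddCircle))
          (fun i => ((y i : ℝ) : UnitAddCircle)) = _
        ext i
        fin_cases i
        · simp [skInv]
        · simp [skInv] }

theorem coe_TAdiffeo {a : ℕ → ℝ} (hd : LData (r : UnitAddCircle) q n C) (ha : ∀ i, |a i| ≤ 1) :
    letI := csTT
    ⇑(TAdiffeo hd ha) = TA (r : UnitAddCircle) q a := rfl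

end Diffeo

end Pool.Agent.Lib.MP_2602dd_lc
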