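import Mathlib
import Pool.Agent.Lib.MP_2602dd_lc.Skew

/-!
Ergodicity of the skew products.
-/

set_option autoImplicit false

open Topology Set Filter MeasureTheory UnitAddTorus

namespace Pool.Agent.Lib.MP_2602dd_lc

/-- Fourier coefficients on the two-torus. -/
noncomputable def fc (g : TT → ℂ) (n : Fin 2 → ℤ) : ℂ := ∫ t, mFourier (-n) t • g t ∂nu

theorem fc_eq (g : TT → ℂ) (n : Fin 2 → ℤ) : mFourierCoeff g n = fc g n := rfl

theorem fc_congr {g h : TT → ℂ} (hgh : g =ᵐ[nu] h) (n : Fin 2 → ℤ) : fc g n = fc h n := by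
  apply integral_congr_ae
  filter_upwards [hgh] with t ht
  rw [ht]

theorem summable_sq_fc {g : TT → ℂ} (hg : MemLp g 2 nu) :
    Summable (fun n : Fin 2 → ℤ => ‖fc g n‖ ^ 2) := by
  have h := (hasSum_sq_mFourierCoeff (d := Fin 2) (hg.toLp g)).summable
  have h2 : ∀ n, mFourierCoeff (hg.toLp g : TT → ℂ) n = fc g n := by
    intro n
    rw [fc_eq]
    exact fc_congr hg.coeFn_toLp n
  have h3 : (fun n : Fin 2 → ℤ => ‖fc g n‖ ^ 2) =
      fun n => ‖mFourierCoeff (hg.toLp g : TT → ℂ) n‖ ^ 2 := funext fun n => by rw [h2]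
  rw [h3]
  exact h

theorem tendsto_fc {g : TT → ℂ} (hg : MemLp g 2 nu) : Tendsto (fc g) cofinite (𝓝 0) := by
  have h := (summable_sq_fc hg).tendsto_cofinite_zero
  rw [tendsto_zero_iff_norm_tendsto_zero]
  have h2 : Tendsto (fun n => Real.sqrt (‖fc g n‖ ^ 2)) cofinite (𝓝 (Real.sqrt 0)) :=
    (Real.continuous_sqrt.tendsto 0).comp h
  simpa using h2

theorem const_of_fc {g : TT → ℂ} (hg : MemLp g 2 nu) (h0 : ∀ n : Fin 2 → ℤ, n ≠ 0 → fc g n = 0) :
    ∃ c : ℂ, g =ᵐ[nu] fun _ => c := by
  have h := hasSum_mFourier_series_L2 (d := Fin 2) (hg.toLp g)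
  have h2 : ∀ n, mFourierCoeff (hg.toLp g : TT → ℂ) n = fc g n := by
    intro n
    rw [fc_eq]
    exact fc_congr hg.coeFn_toLp n
  have h3 : HasSum (fun i : Fin 2 → ℤ => mFourierCoeff (hg.toLp g : TT → ℂ) i • mFourierLp 2 i)
      (mFourierCoeff (hg.toLp g : TT → ℂ) 0 • mFourierLp 2 (0 : Fin 2 → ℤ)) := by
    apply hasSum_single
    intro n hn
    rw [h2, h0 n hn, zero_smul]
  have h4 := h.unique h3
  refine ⟨fc g 0, ?_⟩
  have h5 : (hg.toLp g : TT → ℂ) =ᵐ[nu] g := hg.coeFn_toLp
  have h6 := Lp.coeFn_smul (mFourierCoeff (hg.toLp g : TT → ℂ) 0) (mFourierLp 2 (0 : Fin 2 → ℤ))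
  have h7 := coeFn_mFourierLp 2 (0 : Fin 2 → ℤ)
  have h6' : ((mFourierCoeff (hg.toLp g : TT → ℂ) 0 • mFourierLp 2 (0 : Fin 2 → ℤ) :
      Lp ℂ 2 nu) : TT → ℂ) =ᵐ[nu]
      mFourierCoeff (hg.toLp g : TT → ℂ) 0 • (mFourierLp 2 (0 : Fin 2 → ℤ) : TT → ℂ) := h6
  have h7' : (mFourierLp 2 (0 : Fin 2 → ℤ) : TT → ℂ) =ᵐ[nu] mFourier (0 : Fin 2 → ℤ) := h7
  have h4' : (hg.toLp g : TT → ℂ) = ((mFourierCoeff (hg.toLp g : TT → ℂ) 0 •
      mFourierLp 2 (0 : Fin 2 → ℤ) : Lp ℂ 2 nu) : TT → ℂ) :=
    congrArg (fun u : Lp ℂ 2 nu => (u : TT → ℂ)) h4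
  filter_upwards [h5, h6', h7'] with t ht5 ht6 ht7
  rw [← ht5, h4', ht6, Pi.smul_apply, ht7, h2, mFourier_zero]
  simp

/-- A criterion for ergodicity. -/
theorem ergodic_of_fc {T : TT → TT} (hT : MeasurePreserving T nu nu)
    (h0 : ∀ g : TT → ℂ, MemLp g 2 nu → Measurable g → g ∘ T = g →
      ∀ n : Fin 2 → ℤ, n ≠ 0 → fc g n = 0) : Ergodic T nu := by
  refine { hT with aeconst_set := ?_ }
  intro A hA hinv
  let g : TT → ℂ := A.indicator 1
  have hgm : Measurable g := measurable_one.indicator hA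
  have hg : MemLp g 2 nu := by
    apply MemLp.indicator hA
    exact memLp_const 1
  have hgT : g ∘ T = g := by
    ext p
    show A.indicator 1 (T p) = A.indicator 1 p
    have : T p ∈ A ↔ p ∈ A := by
      conv_rhs => rw [← hinv]
      rfl
    by_cases hp : p ∈ A
    · rw [indicator_of_mem hp, indicator_of_mem (this.2 hp)]; rfl
    · rw [indicator_of_notMem hp, indicator_of_notMem (fun h => hp (this.1 h))]
  obtain ⟨c, hc⟩ := const_of_fc hg (h0 g hg hgm hgT)
  rw [eventuallyConst_set]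
  by_cases h1 : c = 1
  · left
    filter_upwards [hc] with p hp
    by_contra hpA
    have : g p = 0 := indicator_of_notMem hpA _
    rw [this, h1] at hp
    exact zero_ne_one hp
  · right
    filter_upwards [hc] with p hp
    intro hpA
    have : g p = 1 := indicator_of_mem hpA _
    rw [this] at hp
    exact h1 hp.symm

section WeakLimit

/-- The integral pairing. -/
noncomputable def LL (g : TT → ℂ) (r : ℕ) (φ : UnitAddCircle → ℂ) : ℂ :=
  ∫ p, g p * φ (r • p 0) ∂nu

/-- The limit pairing. -/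
noncomputable def LI (g : TT → ℂ) (φ : UnitAddCircle → ℂ) : ℂ :=
  (∫ p, g p ∂nu) * ∫ u, φ u ∂AddCircle.haarAddCircle

theorem continuous_comp_smul (φ : C(UnitAddCircle, ℂ)) (r : ℕ) :
    Continuous fun p : TT => φ (r • p 0) := by
  have h0 : Continuous (fun p : TT => p 0) := continuous_apply 0
  exact φ.continuous.comp ((continuous_nsmul r).comp h0)

theorem integrable_mul_cont {g : TT → ℂ} (hg : Integrable g nu) {F : TT → ℂ} (hF : Continuous F)
    (c : ℝ) (hc : ∀ p, ‖F p‖ ≤ c) : Integrable (fun p => g p * F p) nu := by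
  refine Integrable.mono' (hg.norm.mul_const c) (hg.1.mul hF.aestronglyMeasurable) ?_
  filter_upwards with p
  rw [norm_mul]
  gcongr
  exact hc p

theorem integrable_LL {g : TT → ℂ} (hg : Integrable g nu) (φ : C(UnitAddCircle, ℂ)) (r : ℕ) :
    Integrable (fun p => g p * φ (r • p 0)) nu :=
  integrable_mul_cont hg (continuous_comp_smul φ r) ‖φ‖ (fun p => φ.norm_coe_le_norm _)

theorem LL_add {g : TT → ℂ} (hg : Integrable g nu) (r : ℕ) (φ ψ : C(UnitAddCircle, ℂ)) :
    LL g r (φ + ψ : C(UnitAddCircle, ℂ)) = LL g r φ + LL g r ψ := by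
  rw [LL, LL, LL, ← integral_add (integrable_LL hg φ r) (integrable_LL hg ψ r)]
  congr 1
  ext p
  rw [ContinuousMap.add_apply, mul_add]

theorem integrable_cont (φ : C(UnitAddCircle, ℂ)) :
    Integrable φ AddCircle.haarAddCircle :=
  φ.continuous.integrable_of_hasCompactSupport (HasCompactSupport.of_compactSpace _)

theorem LI_add (g : TT → ℂ) (φ ψ : C(UnitAddCircle, ℂ)) :
    LI g (φ + ψ : C(UnitAddCircle, ℂ)) = LI g φ + LI g ψ := by
  rw [LI, LI, LI, ← mul_add, ← integral_add (integrable_cont φ) (integrable_cont ψ)]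
  rfl

theorem LL_smul (g : TT → ℂ) (r : ℕ) (c : ℂ) (φ : C(UnitAddCircle, ℂ)) :
    LL g r (c • φ : C(UnitAddCircle, ℂ)) = c * LL g r φ := by
  rw [LL, LL, ← integral_const_mul]
  congr 1
  ext p
  rw [ContinuousMap.smul_apply, smul_eq_mul]
  ring

theorem LI_smul (g : TT → ℂ) (c : ℂ) (φ : C(UnitAddCircle, ℂ)) :
    LI g (c • φ : C(UnitAddCircle, ℂ)) = c * LI g φ := by
  rw [LI, LI]
  have : (∫ u, (c • φ : C(UnitAddCircle, ℂ)) u ∂AddCircle.haarAddCircle) =
      c * ∫ u, φ u ∂AddCircle.haarAddCircle := by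
    rw [← integral_const_mul]
    rfl
  rw [this]
  ring

theorem LL_bound {g : TT → ℂ} (hg : Integrable g nu) (r : ℕ) (φ : C(UnitAddCircle, ℂ)) :
    ‖LL g r φ‖ ≤ (∫ p, ‖g p‖ ∂nu) * ‖φ‖ := by
  rw [LL, ← integral_mul_const]
  refine norm_integral_le_of_norm_le (hg.norm.mul_const _) ?_
  filter_upwards with p
  rw [norm_mul]
  gcongr
  exact φ.norm_coe_le_norm _

theorem LI_bound {g : TT → ℂ} (φ : C(UnitAddCircle, ℂ)) :
    ‖LI g φ‖ ≤ (∫ p, ‖g p‖ ∂nu) * ‖φ‖ := by
  rw [LI, norm_mul]
  gcongr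
  · exact norm_integral_le_integral_norm _
  · refine (norm_integral_le_of_norm_le_const (C := ‖φ‖) ?_).trans ?_
    · filter_upwards with u
      exact φ.norm_coe_le_norm _
    · simp

theorem LL_fourier (g : TT → ℂ) (r : ℕ) (j : ℤ) :
    LL g r (fourier j : C(UnitAddCircle, ℂ)) = fc g ![-(j * r), 0] := by
  rw [LL, fc]
  congr 1
  ext p
  have h1 : mFourier (-![-(j * r), 0]) p = fourier j ((r : ℕ) • p 0) := by
    simp only [mFourier, ContinuousMap.coe_mk, Fin.prod_univ_two, Pi.neg_apply,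
      Matrix.cons_val_zero, Matrix.cons_val_one, neg_neg, neg_zero, fourier_zero, mul_one]
    rw [fourier_apply, fourier_apply, mul_smul]
    congr 3
  rw [h1, smul_eq_mul, mul_comm]

theorem weak_limit {g : TT → ℂ} (hg : MemLp g 2 nu) (φ : C(UnitAddCircle, ℂ)) (r : ℕ → ℕ)
    (hr : Tendsto r atTop atTop) :
    Tendsto (fun k => LL g (r k) φ) atTop (𝓝 (LI g φ)) := by
  have hgi : Integrable g nu := hg.integrable (by norm_num)
  let S : Submodule ℂ C(UnitAddCircle, ℂ) :=
    { carrier := {φ | Tendsto (fun k => LL g (r k) φ) atTop (𝓝 (LI g φ))}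
      add_mem' := by
        intro a b ha hb
        have h := Tendsto.add (show Tendsto _ _ _ from ha) (show Tendsto _ _ _ from hb)
        show Tendsto (fun k => LL g (r k) (a + b : C(UnitAddCircle, ℂ))) atTop
          (𝓝 (LI g (a + b : C(UnitAddCircle, ℂ))))
        rw [LI_add]
        simpa only [LL_add hgi] using h
      zero_mem' := by
        show Tendsto (fun k => LL g (r k) (0 : C(UnitAddCircle, ℂ))) atTop
          (𝓝 (LI g (0 : C(UnitAddCircle, ℂ))))
        simp [LL, LI]
      smul_mem' := by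
        intro c a ha
        have h := Tendsto.const_mul c (show Tendsto _ _ _ from ha)
        show Tendsto (fun k => LL g (r k) (c • a : C(UnitAddCircle, ℂ))) atTop
          (𝓝 (LI g (c • a : C(UnitAddCircle, ℂ))))
        rw [LI_smul]
        simpa only [LL_smul] using h }
  have hmem : ∀ φ : C(UnitAddCircle, ℂ), φ ∈ S ↔
      Tendsto (fun k => LL g (r k) φ) atTop (𝓝 (LI g φ)) := fun φ => Iff.rfl
  have hclosed : IsClosed (S : Set C(UnitAddCircle, ℂ)) := by
    apply isClosed_of_closure_subset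
    intro φ hφ
    show Tendsto (fun k => LL g (r k) φ) atTop (𝓝 (LI g φ))
    rw [Metric.tendsto_atTop]
    intro ε hε
    set B := ∫ p, ‖g p‖ ∂nu with hB
    have hB0 : 0 ≤ B := integral_nonneg fun p => norm_nonneg _
    obtain ⟨ψ, hψ, hd⟩ := Metric.mem_closure_iff.1 hφ (ε / (3 * (B + 1))) (by positivity)
    rw [dist_eq_norm] at hd
    have hBε : B * ‖φ - ψ‖ ≤ ε / 3 := by
      calc B * ‖φ - ψ‖ ≤ (B + 1) * (ε / (3 * (B + 1))) := by gcongr; linarith
        _ = ε / 3 := by field_simp
    have hψ' : Tendsto (fun k => LL g (r k) ψ) atTop (𝓝 (LI g ψ)) := hψ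
    obtain ⟨N, hN⟩ := Metric.tendsto_atTop.1 hψ' (ε / 3) (by positivity)
    refine ⟨N, fun k hk => ?_⟩
    have h1 := hN k hk
    rw [dist_eq_norm] at h1 ⊢
    have e1 : LL g (r k) φ = LL g (r k) (φ - ψ : C(UnitAddCircle, ℂ)) + LL g (r k) ψ := by
      rw [← LL_add hgi]; simp
    have e2 : LI g φ = LI g (φ - ψ : C(UnitAddCircle, ℂ)) + LI g ψ := by
      rw [← LI_add]; simp
    have h2 := (LL_bound hgi (r k) (φ - ψ)).trans hBε
    have h3 := (LI_bound (g := g) (φ - ψ)).trans hBε
    rw [e1, e2]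
    calc ‖LL g (r k) (φ - ψ : C(UnitAddCircle, ℂ)) + LL g (r k) ψ -
          (LI g (φ - ψ : C(UnitAddCircle, ℂ)) + LI g ψ)‖
        = ‖LL g (r k) (φ - ψ : C(UnitAddCircle, ℂ)) - LI g (φ - ψ : C(UnitAddCircle, ℂ)) +
          (LL g (r k) ψ - LI g ψ)‖ := by congr 1; ring
      _ ≤ ‖LL g (r k) (φ - ψ : C(UnitAddCircle, ℂ)) - LI g (φ - ψ : C(UnitAddCircle, ℂ))‖ +
          ‖LL g (r k) ψ - LI g ψ‖ := norm_add_le _ _
      _ ≤ ‖LL g (r k) (φ - ψ : C(UnitAddCircle, ℂ))‖ + ‖LI g (φ - ψ : C(UnitAddCircle, ℂ))‖ +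
          ‖LL g (r k) ψ - LI g ψ‖ := by gcongr; exact norm_sub_le _ _
      _ < ε := by linarith
  have hfour : ∀ j : ℤ, (fourier j : C(UnitAddCircle, ℂ)) ∈ S := by
    intro j
    rw [hmem]
    by_cases hj : j = 0
    · subst hj
      have : ∀ k, LL g (r k) (fourier 0 : C(UnitAddCircle, ℂ)) =
          LI g (fourier 0 : C(UnitAddCircle, ℂ)) := by
        intro k
        simp [LL, LI]
      simp only [this]
      exact tendsto_const_nhds
    · have hI : LI g (fourier j : C(UnitAddCircle, ℂ)) = 0 := by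
        rw [LI]
        have := integral_eq_zero_of_add_right_eq_neg (μ := AddCircle.haarAddCircle)
          (fourier_add_half_inv_index (T := (1 : ℝ)) hj (by norm_num))
        rw [this, mul_zero]
      rw [hI]
      simp only [LL_fourier]
      refine (tendsto_fc hg).comp ?_
      show map _ atTop ≤ cofinite
      rw [le_cofinite_iff_eventually_ne]
      intro x
      rw [eventually_map]
      have h1 : ∀ᶠ k in atTop, (x 0).natAbs < r k := hr.eventually_gt_atTop _
      filter_upwards [h1] with k hk heq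
      have h2 : x 0 = -(j * r k) := by rw [← heq]; rfl
      have h3 : (x 0).natAbs = j.natAbs * r k := by
        rw [h2, Int.natAbs_neg, Int.natAbs_mul, Int.natAbs_natCast]
      have h4 : 1 ≤ j.natAbs := Int.natAbs_pos.2 hj
      nlinarith
  have htop : (⊤ : Submodule ℂ C(UnitAddCircle, ℂ)) ≤ S := by
    rw [← span_fourier_closure_eq_top (T := (1 : ℝ))]
    apply Submodule.topologicalClosure_minimal _ _ hclosed
    rw [Submodule.span_le]
    rintro _ ⟨j, rfl⟩
    exact hfour j
  exact htop trivial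

end WeakLimit

section Ergodic

variable {α : UnitAddCircle} {q n : ℕ → ℕ} {C : ℝ} (hd : LData α q n C)

/-- The limit profile. -/
noncomputable def prof (m : ℤ) : C(UnitAddCircle, ℂ) where
  toFun u := chi (m • ((2 * (chi u).re : ℝ) : UnitAddCircle))
  continuous_toFun := by
    refine continuous_chi.comp ((continuous_zsmul m).comp ?_)
    exact (AddCircle.continuous_mk' 1).comp
      (continuous_const.mul (Complex.continuous_re.comp continuous_chi))

theorem prof_apply (m : ℤ) (u : UnitAddCircle) :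
    prof m u = chi (m • ((2 * (chi u).re : ℝ) : UnitAddCircle)) := rfl

theorem exists_re_chi (c : ℝ) (hc : |c| ≤ 1) : ∃ u : UnitAddCircle, (chi u).re = c := by
  refine ⟨((Real.arccos c / (2 * Real.pi) : ℝ) : UnitAddCircle), ?_⟩
  rw [chi_coe]
  have h1 : 2 * Real.pi * (Real.arccos c / (2 * Real.pi)) = Real.arccos c := by
    field_simp
  rw [h1, mul_comm, Complex.exp_ofReal_mul_I_re, Real.cos_arccos]
  · exact (abs_le.1 hc).1
  · exact (abs_le.1 hc).2

theorem exists_prof_eq (m : ℤ) (hm : m ≠ 0) : ∃ u, prof m u = -1 := by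
  have hm' : (m : ℝ) ≠ 0 := by exact_mod_cast hm
  have h1 : (1 : ℝ) ≤ |(m : ℝ)| := by exact_mod_cast Int.one_le_abs hm
  obtain ⟨u, hu⟩ := exists_re_chi (1 / (4 * m)) (by
    rw [abs_div, abs_one, abs_mul, abs_of_pos (by norm_num : (0 : ℝ) < 4), div_le_one (by positivity)]
    linarith)
  refine ⟨u, ?_⟩
  rw [prof_apply, hu, ← AddCircle.coe_zsmul, zsmul_eq_mul]
  have : (m : ℝ) * (2 * (1 / (4 * m))) = 1 / 2 := by field_simp; norm_num
  rw [this, chi_coe_half]

theorem eq_one_of_integral_eq_one (φ : C(UnitAddCircle, ℂ)) (hφ : ∀ u, ‖φ u‖ = 1)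
    (h : ∫ u, φ u ∂AddCircle.haarAddCircle = 1) (u : UnitAddCircle) : φ u = 1 := by
  have hi := integrable_cont φ
  have hire : Integrable (fun u => (φ u).re) AddCircle.haarAddCircle := hi.re
  have hre : ∫ u, (1 - (φ u).re) ∂AddCircle.haarAddCircle = 0 := by
    rw [integral_sub (integrable_const _) hire]
    have h2 : ∫ u, (φ u).re ∂AddCircle.haarAddCircle = 1 := by
      have := integral_re hi
      simp only [RCLike.re_to_complex] at this
      rw [this, h]
      simp
    rw [h2]
    simp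
  have hnn : ∀ u, 0 ≤ 1 - (φ u).re := by
    intro u
    have := Complex.re_le_norm (φ u)
    rw [hφ u] at this
    linarith
  have hcont : Continuous fun u => 1 - (φ u).re :=
    continuous_const.sub (Complex.continuous_re.comp φ.continuous)
  have hae := (integral_eq_zero_iff_of_nonneg hnn
    ((integrable_const _).sub hire)).1 hre
  have heq : (fun u => 1 - (φ u).re) = fun _ => 0 :=
    (hcont.ae_eq_iff_eq AddCircle.haarAddCircle continuous_const).1 hae
  have h3 : (φ u).re = 1 := by
    have h4 : 1 - (φ u).re = 0 := congrFun heq u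
    linarith
  have h4 := hφ u
  have h5 : (φ u).im = 0 := by
    have h6 := Complex.sq_norm (φ u)
    rw [h4, Complex.normSq_apply, h3] at h6
    have h7 : (φ u).im * (φ u).im = 0 := by linarith
    exact mul_self_eq_zero.1 h7
  exact Complex.ext h3 h5

theorem integral_prof_ne_one (m : ℤ) (hm : m ≠ 0) :
    ∫ u, prof m u ∂AddCircle.haarAddCircle ≠ 1 := by
  intro h
  obtain ⟨u, hu⟩ := exists_prof_eq m hm
  have h1 := eq_one_of_integral_eq_one (prof m) (fun u => norm_chi _) h u
  rw [h1] at hu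
  norm_num at hu

theorem norm_chi_sub_chi_le (s t : UnitAddCircle) : ‖chi s - chi t‖ ≤ 2 * Real.pi * ‖s - t‖ := by
  have h : chi s - chi t = chi t * (chi (s - t) - 1) := by
    rw [mul_sub, ← chi_add]
    simp
  rw [h, norm_mul, norm_chi, one_mul]
  exact norm_chi_sub_one_le _

include hd in
theorem fc_eq_zero_of_invariant {a : ℕ → ℝ} (ha : ∀ i, |a i| ≤ 1) (ha1 : ∀ j, a (2 * j + 1) = 1)
    {g : TT → ℂ} (hg : MemLp g 2 nu) (hinv : g ∘ TA α q a = g) (l : Fin 2 → ℤ)
    (hl : l ≠ 0) : fc g l = 0 := by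
  have hgi : Integrable g nu := hg.integrable (by norm_num)
  have hmF : ∀ p : TT, mFourier (-l) p = chi ((-(l 0)) • p 0) * chi ((-(l 1)) • p 1) := by
    intro p
    simp only [mFourier, ContinuousMap.coe_mk, Fin.prod_univ_two, Pi.neg_apply]
    rw [chi_zsmul_eq_fourier, chi_zsmul_eq_fourier]
  -- iterate
  have hinvN : ∀ N, g ∘ (TA α q a)^[N] = g := by
    intro N
    induction N with
    | zero => rfl
    | succ N ih => rw [Function.iterate_succ', ← Function.comp_assoc, hinv, ih]
  have hT := measurePreserving_TA hd ha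
  have key : ∀ N, fc g l = chi ((-(l 0)) • (N • α)) *
      ∫ p, (g p * mFourier (-l) p) *
        chi ((-(l 1)) • ((P q (cf α q a N) (p 0) : ℝ) : UnitAddCircle)) ∂nu := by
    intro N
    have hTN := hT.iterate N
    have h1 : fc g l = ∫ p, mFourier (-l) ((TA α q a)^[N] p) • g ((TA α q a)^[N] p) ∂nu := by
      rw [fc]
      conv_lhs => rw [← hTN.map_eq]
      rw [integral_map hTN.measurable.aemeasurable]
      rw [hTN.map_eq]
      exact ((mFourier (-l)).continuous.aestronglyMeasurable).smul hg.1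
    rw [h1, ← integral_const_mul]
    congr 1
    ext p
    have h2 : g ((TA α q a)^[N] p) = g p := congrFun (hinvN N) p
    rw [h2, hmF, hmF, iterate_TA hd ha]
    simp only [Matrix.cons_val_zero, Matrix.cons_val_one, smul_add, chi_add, smul_eq_mul]
    ring
  by_cases hm : l 1 = 0
  · -- rotation case
    have hl0 : l 0 ≠ 0 := by
      intro h0
      apply hl
      ext i
      fin_cases i
      · exact h0
      · exact hm
    have h1 := key 1
    rw [hm] at h1
    simp only [neg_zero, zero_smul, chi_zero, mul_one, one_smul] at h1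
    have h2 : ∫ p, g p * mFourier (-l) p ∂nu = fc g l := by
      rw [fc]
      congr 1
      ext p
      rw [smul_eq_mul, mul_comm]
    rw [h2] at h1
    have h3 := hd.irr (-(l 0)) (by simpa using hl0)
    have h4 : (chi ((-(l 0)) • α) - 1) * fc g l = 0 := by
      rw [sub_mul, one_mul, ← h1, sub_self]
    rcases mul_eq_zero.1 h4 with h5 | h5
    · exact absurd (sub_eq_zero.1 h5) h3
    · exact h5
  · -- fibre case
    set G : TT → ℂ := fun p => g p * mFourier (-l) p with hG
    have hG2 : MemLp G 2 nu := by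
      have : MemLp (fun p => mFourier (-l) p * g p) 2 nu := by
        refine MemLp.of_le hg ((mFourier (-l)).continuous.aestronglyMeasurable.mul hg.1) ?_
        filter_upwards with p
        rw [norm_mul, hmF, norm_mul, norm_chi, norm_chi, one_mul, one_mul]
      simpa only [hG, mul_comm] using this
    have hGi : Integrable G nu := hG2.integrable (by norm_num)
    have hGint : ∫ p, G p ∂nu = fc g l := by
      rw [fc]
      congr 1
      ext p
      rw [hG, smul_eq_mul, mul_comm]
    have hk : Tendsto (fun j : ℕ => 2 * j + 1) atTop atTop :=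
      tendsto_atTop_mono (f := fun j => j) (fun j => by omega) tendsto_id
    have hqk : Tendsto (fun j : ℕ => q (2 * j + 1)) atTop atTop := hd.qtop.comp hk
    have hlim := weak_limit hG2 (prof (l 1)) (fun j => q (2 * j + 1)) hqk
    -- the error term
    have herr : Tendsto (fun j : ℕ =>
        (∫ p, G p * chi ((-(l 1)) • ((P q (cf α q a (n (2 * j + 1))) (p 0) : ℝ) :
          UnitAddCircle)) ∂nu) - LL G (q (2 * j + 1)) (prof (l 1))) atTop (𝓝 0) := by
      have hpow : Tendsto (fun j : ℕ => (∫ p, ‖G p‖ ∂nu) *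
          (2 * Real.pi * (|(l 1 : ℝ)| * (2 * C * (1 / 2) ^ (2 * j + 1))))) atTop (𝓝 0) := by
        have h0 : Tendsto (fun k : ℕ => (1 / 2 : ℝ) ^ k) atTop (𝓝 0) :=
          tendsto_pow_atTop_nhds_zero_of_lt_one (by norm_num) (by norm_num)
        have h1 := (((h0.comp hk).const_mul (2 * C)).const_mul (|(l 1 : ℝ)|)).const_mul
          (2 * Real.pi)
        have h2 := h1.const_mul (∫ p, ‖G p‖ ∂nu)
        simpa using h2
      refine squeeze_zero_norm (fun j => ?_) hpow
      set k := 2 * j + 1 with hkdef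
      have hak : a k = 1 := ha1 j
      have hcontF : Continuous fun p : TT =>
          chi ((-(l 1)) • ((P q (cf α q a (n k)) (p 0) : ℝ) : UnitAddCircle)) := by
        have h0 : Continuous (fun p : TT => p 0) := continuous_apply 0
        exact continuous_chi.comp ((continuous_zsmul _).comp
          ((AddCircle.continuous_mk' 1).comp ((continuous_P_cf hd ha _).comp h0)))
      have hi1 := integrable_mul_cont hGi hcontF 1 (fun p => (norm_chi _).le)
      have hi2 := integrable_LL hGi (prof (l 1)) (q k)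
      rw [LL, ← integral_sub hi1 hi2, ← integral_mul_const]
      refine norm_integral_le_of_norm_le (hGi.norm.mul_const _) ?_
      filter_upwards with p
      rw [← mul_sub, norm_mul]
      gcongr
      rw [prof_apply]
      refine (norm_chi_sub_chi_le _ _).trans ?_
      gcongr
      have e1 : (-(l 1)) • ((P q (cf α q a (n k)) (p 0) : ℝ) : UnitAddCircle) -
          (l 1) • ((2 * (chi (q k • p 0)).re : ℝ) : UnitAddCircle) =
          (((-(l 1 : ℝ)) * (P q (cf α q a (n k)) (p 0) + 2 * a k * (chi (q k • p 0)).re) : ℝ) :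
            UnitAddCircle) := by
        rw [← AddCircle.coe_zsmul, ← AddCircle.coe_zsmul, ← AddCircle.coe_sub, hak]
        congr 1
        simp only [zsmul_eq_mul]
        push_cast
        ring
      rw [e1]
      refine (norm_coe_le _).trans ?_
      rw [abs_mul, abs_neg]
      gcongr
      exact approx hd ha k (p 0)
    have hlim2 : Tendsto (fun j : ℕ =>
        ∫ p, G p * chi ((-(l 1)) • ((P q (cf α q a (n (2 * j + 1))) (p 0) : ℝ) :
          UnitAddCircle)) ∂nu) atTop (𝓝 (LI G (prof (l 1)))) := by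
      have := herr.add hlim
      simpa using this
    have hrot : Tendsto (fun j : ℕ => chi ((-(l 0)) • (n (2 * j + 1) • α))) atTop (𝓝 1) := by
      have h1 : Tendsto (fun k => n k • α) atTop (𝓝 0) :=
        tendsto_zero_iff_norm_tendsto_zero.2 hd.nsm
      have h2 : Continuous fun t : UnitAddCircle => chi ((-(l 0)) • t) :=
        continuous_chi.comp (continuous_zsmul _)
      have h3 := ((h2.tendsto 0).comp (h1.comp hk))
      simpa [chi_zero, Function.comp_def] using h3
    have hfin : Tendsto (fun _ : ℕ => fc g l) atTop (𝓝 (1 * LI G (prof (l 1)))) := by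
      have := hrot.mul hlim2
      refine this.congr (fun j => ?_)
      exact (key _).symm
    have heq : fc g l = 1 * LI G (prof (l 1)) := tendsto_nhds_unique tendsto_const_nhds hfin
    rw [one_mul, LI, hGint] at heq
    have h5 : fc g l * (1 - ∫ u, prof (l 1) u ∂AddCircle.haarAddCircle) = 0 := by
      rw [mul_sub, mul_one, ← heq, sub_self]
    rcases mul_eq_zero.1 h5 with h6 | h6
    · exact h6
    · exact absurd (sub_eq_zero.1 h6).symm (integral_prof_ne_one _ hm)

include hd in
theorem ergodic_TA {a : ℕ → ℝ} (ha : ∀ i, |a i| ≤ 1) (ha1 : ∀ j, a (2 * j + 1) = 1) :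
    Ergodic (TA α q a) nu :=
  ergodic_of_fc (measurePreserving_TA hd ha)
    (fun _ hg _ hinv l hl => fc_eq_zero_of_invariant hd ha ha1 hg hinv l hl)

end Ergodic

end Pool.Agent.Lib.MP_2602dd_lc
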