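import Mathlib
import Pool.Agent.Lib.MP_2602dd_lc.Erg

/-!
Rigidity times as isomorphism invariants.
-/

set_option autoImplicit false

open Topology Set Filter MeasureTheory

namespace Pool.Agent.Lib.MP_2602dd_lc

/-- Measure isomorphism of two maps of the torus. -/
def MIso (S T : TT → TT) : Prop :=
  ∃ φ ψ : TT → TT, MeasurePreserving φ nu nu ∧ MeasurePreserving ψ nu nu ∧
    ψ ∘ φ =ᵐ[nu] id ∧ φ ∘ ψ =ᵐ[nu] id ∧ φ ∘ S =ᵐ[nu] T ∘ φ

section

variable {α : UnitAddCircle} {q n : ℕ → ℕ} {C : ℝ} (hd : LData α q n C)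

theorem ae_iterate {S T φ : TT → TT} (hS : MeasurePreserving S nu nu)
    (h : φ ∘ S =ᵐ[nu] T ∘ φ) (N : ℕ) : φ ∘ S^[N] =ᵐ[nu] T^[N] ∘ φ := by
  induction N with
  | zero => exact EventuallyEq.rfl
  | succ N ih =>
    have h1 : (φ ∘ S^[N]) ∘ S =ᵐ[nu] (T^[N] ∘ φ) ∘ S := hS.quasiMeasurePreserving.ae_eq_comp ih
    have h2 : T^[N] ∘ (φ ∘ S) =ᵐ[nu] T^[N] ∘ (T ∘ φ) := h.fun_comp T^[N]
    rw [Function.iterate_succ, Function.iterate_succ, ← Function.comp_assoc]
    exact h1.trans h2

theorem rigid_transfer {S T : TT → TT} (hS : MeasurePreserving S nu nu)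
    (hT : MeasurePreserving T nu nu) (hST : MIso S T) (N : ℕ → ℕ)
    (h : ∀ g : TT → ℂ, Integrable g nu →
      Tendsto (fun j => ∫ p, ‖g (S^[N j] p) - g p‖ ∂nu) atTop (𝓝 0))
    (g : TT → ℂ) (hg : Integrable g nu) (hgm : StronglyMeasurable g) :
    Tendsto (fun j => ∫ p, ‖g (T^[N j] p) - g p‖ ∂nu) atTop (𝓝 0) := by
  obtain ⟨φ, ψ, hφ, hψ, _, _, hc⟩ := hST
  have h1 := h (g ∘ φ) (hφ.integrable_comp_of_integrable hg)
  refine h1.congr (fun j => ?_)
  have e1 : ∫ p, ‖g (T^[N j] p) - g p‖ ∂nu = ∫ p, ‖g (T^[N j] (φ p)) - g (φ p)‖ ∂nu := by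
    conv_lhs => rw [← hφ.map_eq]
    rw [integral_map hφ.measurable.aemeasurable]
    have hTm := (hT.iterate (N j)).measurable
    exact ((hgm.comp_measurable hTm).sub hgm).norm.aestronglyMeasurable
  rw [e1]
  apply integral_congr_ae
  filter_upwards [ae_iterate hS hc (N j)] with p hp
  simp only [Function.comp_apply] at hp ⊢
  rw [hp]

include hd in
theorem rigid {a : ℕ → ℝ} (ha : ∀ i, |a i| ≤ 1) (K : ℕ → ℕ) (hK : Tendsto K atTop atTop)
    (haK : Tendsto (fun j => a (K j)) atTop (𝓝 0)) (g : TT → ℂ) (hg : Integrable g nu) :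
    Tendsto (fun j => ∫ p, ‖g ((TA α q a)^[n (K j)] p) - g p‖ ∂nu) atTop (𝓝 0) := by
  have hT := measurePreserving_TA hd ha
  -- uniform closeness to the identity
  have hb : Tendsto (fun j => max ‖n (K j) • α‖ (2 * |a (K j)| + 2 * C * (1 / 2) ^ (K j))) atTop
      (𝓝 0) := by
    have h0 : Tendsto (fun k : ℕ => (1 / 2 : ℝ) ^ k) atTop (𝓝 0) :=
      tendsto_pow_atTop_nhds_zero_of_lt_one (by norm_num) (by norm_num)
    have h1 := (h0.comp hK).const_mul (2 * C)
    have h2 := haK.abs.const_mul 2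
    have h3 := h2.add h1
    have h4 := (hd.nsm.comp hK).max h3
    simpa using h4
  have hdist : ∀ j p, dist ((TA α q a)^[n (K j)] p) p ≤
      max ‖n (K j) • α‖ (2 * |a (K j)| + 2 * C * (1 / 2) ^ (K j)) := by
    intro j p
    rw [dist_pi_le_iff (le_max_of_le_left (norm_nonneg _))]
    intro i
    rw [iterate_TA hd ha]
    fin_cases i
    · refine le_max_of_le_left ?_
      simp [dist_eq_norm]
    · refine le_max_of_le_right ?_
      simp only [Fin.mk_one, Matrix.cons_val_one, Matrix.cons_val_fin_one, dist_eq_norm,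
        add_sub_cancel_left]
      refine (norm_coe_le _).trans ?_
      have h1 := approx hd ha (K j) (p 0)
      have h2 : |2 * a (K j) * (chi (q (K j) • p 0)).re| ≤ 2 * |a (K j)| := by
        rw [abs_mul, abs_mul, abs_two]
        have : |(chi (q (K j) • p 0)).re| ≤ 1 :=
          (Complex.abs_re_le_norm _).trans (norm_chi _).le
        nlinarith [abs_nonneg (a (K j)), abs_nonneg (chi (q (K j) • p 0)).re]
      have h3 : |P q (cf α q a (n (K j))) (p 0)| ≤
          |P q (cf α q a (n (K j))) (p 0) + 2 * a (K j) * (chi (q (K j) • p 0)).re| +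
          |2 * a (K j) * (chi (q (K j) • p 0)).re| := by
        have := abs_sub (P q (cf α q a (n (K j))) (p 0) + 2 * a (K j) * (chi (q (K j) • p 0)).re)
          (2 * a (K j) * (chi (q (K j) • p 0)).re)
        simpa using this
      linarith
  rw [Metric.tendsto_atTop]
  intro ε hε
  obtain ⟨g', hg', hg'i⟩ := hg.exists_boundedContinuous_integral_sub_le (ε := ε / 4) (by positivity)
  have huc : UniformContinuous (g' : TT → ℂ) :=
    CompactSpace.uniformContinuous_of_continuous g'.continuous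
  obtain ⟨δ, hδ, hδg⟩ := Metric.uniformContinuous_iff.1 huc (ε / 4) (by positivity)
  obtain ⟨J, hJ⟩ := Metric.tendsto_atTop.1 hb δ hδ
  refine ⟨J, fun j hj => ?_⟩
  have hTN := hT.iterate (n (K j))
  have h1 : ∀ p, ‖g' ((TA α q a)^[n (K j)] p) - g' p‖ ≤ ε / 4 := by
    intro p
    rw [← dist_eq_norm]
    apply le_of_lt
    apply hδg
    have := hJ j hj
    rw [Real.dist_eq, sub_zero] at this
    exact (hdist j p).trans_lt ((le_abs_self _).trans_lt this)
  have hgT : Integrable (fun p => g ((TA α q a)^[n (K j)] p)) nu :=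
    hTN.integrable_comp_of_integrable hg
  have hg'T : Integrable (fun p => g' ((TA α q a)^[n (K j)] p)) nu :=
    hTN.integrable_comp_of_integrable hg'i
  have h2 : ∫ p, ‖g ((TA α q a)^[n (K j)] p) - g' ((TA α q a)^[n (K j)] p)‖ ∂nu =
      ∫ p, ‖g p - g' p‖ ∂nu := by
    conv_rhs => rw [← hTN.map_eq]
    rw [integral_map hTN.measurable.aemeasurable]
    rw [hTN.map_eq]
    exact (hg.1.sub hg'i.1).norm
  have i1 : Integrable (fun p => ‖g ((TA α q a)^[n (K j)] p) - g' ((TA α q a)^[n (K j)] p)‖) nu :=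
    (hgT.sub hg'T).norm
  have i2 : Integrable (fun p => ‖g p - g' p‖) nu := (hg.sub hg'i).norm
  have i3 : Integrable (fun p => ‖g ((TA α q a)^[n (K j)] p) - g p‖) nu := (hgT.sub hg).norm
  have i4 : Integrable (fun p => ‖g ((TA α q a)^[n (K j)] p) - g' ((TA α q a)^[n (K j)] p)‖ +
      ε / 4) nu := i1.add (integrable_const _)
  have h3 : ∫ p, ‖g ((TA α q a)^[n (K j)] p) - g p‖ ∂nu ≤
      ∫ p, (‖g ((TA α q a)^[n (K j)] p) - g' ((TA α q a)^[n (K j)] p)‖ + ε / 4 +
        ‖g p - g' p‖) ∂nu := by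
    apply integral_mono i3 (i4.add i2)
    intro p
    show ‖g ((TA α q a)^[n (K j)] p) - g p‖ ≤
      ‖g ((TA α q a)^[n (K j)] p) - g' ((TA α q a)^[n (K j)] p)‖ + ε / 4 + ‖g p - g' p‖
    have e1 : g ((TA α q a)^[n (K j)] p) - g p =
        (g ((TA α q a)^[n (K j)] p) - g' ((TA α q a)^[n (K j)] p)) +
        (g' ((TA α q a)^[n (K j)] p) - g' p) + (g' p - g p) := by ring
    rw [e1]
    refine (norm_add₃_le).trans ?_
    rw [norm_sub_rev (g' p) (g p)]
    have := h1 p
    linarith
  have h4 : ∫ p, (‖g ((TA α q a)^[n (K j)] p) - g' ((TA α q a)^[n (K j)] p)‖ + ε / 4 +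
        ‖g p - g' p‖) ∂nu = ∫ p, ‖g p - g' p‖ ∂nu + ε / 4 + ∫ p, ‖g p - g' p‖ ∂nu := by
    rw [integral_add i4 i2, integral_add i1 (integrable_const _), h2]
    simp
  rw [Real.dist_eq, sub_zero, abs_of_nonneg (integral_nonneg fun p => norm_nonneg _)]
  linarith

include hd in
theorem not_rigid {a : ℕ → ℝ} (ha : ∀ i, |a i| ≤ 1) (K : ℕ → ℕ) (hK : Tendsto K atTop atTop)
    (haK : Tendsto (fun j => a (K j)) atTop (𝓝 1)) :
    ¬ Tendsto (fun j => ∫ p, ‖chi (((TA α q a)^[n (K j)] p) 1) - chi (p 1)‖ ∂nu) atTop (𝓝 0) := by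
  intro hcon
  have hcont : ∀ k, Continuous fun p : TT =>
      chi ((P q (cf α q a (n k)) (p 0) : ℝ) : UnitAddCircle) := by
    intro k
    have h0 : Continuous (fun p : TT => p 0) := continuous_apply 0
    exact continuous_chi.comp ((AddCircle.continuous_mk' 1).comp
      ((continuous_P_cf hd ha _).comp h0))
  have h1i : Integrable (fun _ : TT => (1 : ℂ)) nu := integrable_const _
  have hint : ∀ k, Integrable (fun p : TT =>
      chi ((P q (cf α q a (n k)) (p 0) : ℝ) : UnitAddCircle)) nu := by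
    intro k
    have := integrable_mul_cont h1i (hcont k) 1 (fun p => (norm_chi _).le)
    simpa using this
  -- the integrals tend to one
  have hA : Tendsto (fun j => (∫ p, chi ((P q (cf α q a (n (K j))) (p 0) : ℝ) : UnitAddCircle) ∂nu)
      - 1) atTop (𝓝 0) := by
    refine squeeze_zero_norm (fun j => ?_) hcon
    have e1 : (∫ p, chi ((P q (cf α q a (n (K j))) (p 0) : ℝ) : UnitAddCircle) ∂nu) - 1 =
        ∫ p, (chi ((P q (cf α q a (n (K j))) (p 0) : ℝ) : UnitAddCircle) - 1) ∂nu := by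
      rw [integral_sub (hint _) h1i]
      simp
    rw [e1]
    refine (norm_integral_le_integral_norm _).trans (le_of_eq ?_)
    congr 1
    ext p
    rw [iterate_TA hd ha]
    simp only [Matrix.cons_val_one, Matrix.cons_val_fin_one]
    rw [chi_add]
    have : chi (p 1) * chi ((P q (cf α q a (n (K j))) (p 0) : ℝ) : UnitAddCircle) - chi (p 1) =
        chi (p 1) * (chi ((P q (cf α q a (n (K j))) (p 0) : ℝ) : UnitAddCircle) - 1) := by ring
    rw [this, norm_mul, norm_chi, one_mul]
  have h2 : MemLp (fun _ : TT => (1 : ℂ)) 2 nu := memLp_const 1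
  have hlim := weak_limit h2 (prof (-1)) (fun j => q (K j)) (hd.qtop.comp hK)
  have herr : Tendsto (fun j =>
      (∫ p, chi ((P q (cf α q a (n (K j))) (p 0) : ℝ) : UnitAddCircle) ∂nu) -
        LL (fun _ => 1) (q (K j)) (prof (-1))) atTop (𝓝 0) := by
    have hb : Tendsto (fun j => 2 * Real.pi *
        (2 * |1 - a (K j)| + 2 * C * (1 / 2) ^ (K j))) atTop (𝓝 0) := by
      have h0 : Tendsto (fun k : ℕ => (1 / 2 : ℝ) ^ k) atTop (𝓝 0) :=
        tendsto_pow_atTop_nhds_zero_of_lt_one (by norm_num) (by norm_num)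
      have h1 := (h0.comp hK).const_mul (2 * C)
      have h2 := ((tendsto_const_nhds (x := (1 : ℝ))).sub haK).abs.const_mul 2
      have h3 := (h2.add h1).const_mul (2 * Real.pi)
      simpa using h3
    refine squeeze_zero_norm (fun j => ?_) hb
    have hi2 := integrable_LL h1i (prof (-1)) (q (K j))
    rw [LL, ← integral_sub (hint _) hi2]
    refine (norm_integral_le_of_norm_le_const (C := 2 * Real.pi *
        (2 * |1 - a (K j)| + 2 * C * (1 / 2) ^ (K j))) ?_).trans ?_
    · filter_upwards with p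
      rw [one_mul, prof_apply]
      refine (norm_chi_sub_chi_le _ _).trans ?_
      gcongr
      rw [neg_smul, one_smul, sub_neg_eq_add, ← AddCircle.coe_add]
      refine (norm_coe_le _).trans ?_
      have h3 := approx hd ha (K j) (p 0)
      have h4 : |2 * (1 - a (K j)) * (chi (q (K j) • p 0)).re| ≤ 2 * |1 - a (K j)| := by
        rw [abs_mul, abs_mul, abs_two]
        have : |(chi (q (K j) • p 0)).re| ≤ 1 :=
          (Complex.abs_re_le_norm _).trans (norm_chi _).le
        nlinarith [abs_nonneg (1 - a (K j)), abs_nonneg (chi (q (K j) • p 0)).re]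
      have h5 := abs_add_le (P q (cf α q a (n (K j))) (p 0) +
        2 * a (K j) * (chi (q (K j) • p 0)).re) (2 * (1 - a (K j)) * (chi (q (K j) • p 0)).re)
      have h6 : P q (cf α q a (n (K j))) (p 0) + 2 * (chi (q (K j) • p 0)).re =
          P q (cf α q a (n (K j))) (p 0) +
        2 * a (K j) * (chi (q (K j) • p 0)).re + 2 * (1 - a (K j)) * (chi (q (K j) • p 0)).re := by
        ring
      rw [h6]
      linarith
    · simp
  have hfin : Tendsto (fun j =>
      (∫ p, chi ((P q (cf α q a (n (K j))) (p 0) : ℝ) : UnitAddCircle) ∂nu) - 1) atTop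
      (𝓝 (LI (fun _ => 1) (prof (-1)) - 1)) := by
    have := (herr.add hlim).sub_const 1
    simpa using this
  have heq := tendsto_nhds_unique hA hfin
  apply integral_prof_ne_one (-1) (by norm_num)
  rw [LI] at heq
  simp only [integral_const, probReal_univ, one_smul, one_mul] at heq
  exact (sub_eq_zero.1 heq.symm)

include hd in
theorem miso_of_summable {a b : ℕ → ℝ} (ha : ∀ i, |a i| ≤ 1) (hb : ∀ i, |b i| ≤ 1)
    (hab : Summable fun i => |b i - a i|) : MIso (TA α q a) (TA α q b) := by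
  let c : ℕ → ℂ := fun i => ((b i - a i : ℝ) : ℂ)
  have hc : Summable fun i => ‖c i‖ := by
    simpa only [c, Complex.norm_real, Real.norm_eq_abs] using hab
  have hcc : Continuous (P q c) := continuous_P q hc
  have hm1 : Measurable fun s : UnitAddCircle => ((P q c s : ℝ) : UnitAddCircle) :=
    AddCircle.measurable_mk'.comp hcc.measurable
  have hm2 : Measurable fun s : UnitAddCircle => ((-P q c s : ℝ) : UnitAddCircle) :=
    AddCircle.measurable_mk'.comp hcc.neg.measurable
  refine ⟨sk 0 (fun s => ((P q c s : ℝ) : UnitAddCircle)),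
    sk 0 (fun s => ((-P q c s : ℝ) : UnitAddCircle)),
    measurePreserving_sk 0 hm1, measurePreserving_sk 0 hm2, ?_, ?_, ?_⟩
  · refine EventuallyEq.of_eq ?_
    ext p i
    fin_cases i
    · simp
    · simp [add_assoc]
  · refine EventuallyEq.of_eq ?_
    ext p i
    fin_cases i
    · simp
    · simp [add_assoc]
  · refine EventuallyEq.of_eq ?_
    ext p i
    fin_cases i
    · simp [TA_def]
    · have hcoc : ∀ s, P q (cf α q a 1) s + P q c (s + α) = P q c s + P q (cf α q b 1) s := by
        intro s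
        have hcα : Summable fun i => ‖c i * chi (q i • α)‖ := by
          simpa only [norm_mul, norm_chi, mul_one] using hc
        rw [P_shift, ← P_add q (summable_cf hd ha 1) hcα, ← P_add q hc (summable_cf hd hb 1)]
        congr 1
        ext i
        simp only [cf, one_smul, c]
        push_cast
        ring
      simp only [TA_def, Fin.mk_one, Function.comp_apply, sk_one, sk_zero, add_zero, add_assoc]
      rw [← AddCircle.coe_add, hcoc, AddCircle.coe_add]

end

end Pool.Agent.Lib.MP_2602dd_lc
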