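import Mathlib

/-!
Kuratowski-Ulam (one direction) and the Baire property of analytic sets.
-/

set_option autoImplicit false

open Topology Set Filter TopologicalSpace

namespace Pool.Agent.Lib.MP_2602dd_lc

/-- One direction of the Kuratowski-Ulam theorem. -/
theorem kuratowski_ulam {A B : Type*} [TopologicalSpace A] [TopologicalSpace B]
    [SecondCountableTopology B] {P : A × B → Prop}
    (h : ∀ᶠ z in residual (A × B), P z) :
    ∀ᶠ a in residual A, ∀ᶠ b in residual B, P (a, b) := by
  have key : ∀ t : Set (A × B), IsOpen t → Dense t →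
      ∀ᶠ a in residual A, ∀ᶠ b in residual B, (a, b) ∈ t := by
    intro t ht htd
    have hb := isBasis_countableBasis B
    have h1 : ∀ᶠ a in residual A, ∀ V ∈ countableBasis B, ∃ b ∈ V, (a, b) ∈ t := by
      rw [eventually_countable_ball (countable_countableBasis B)]
      intro V hV
      have hVo : IsOpen V := hb.isOpen hV
      have hVne : V.Nonempty := nonempty_of_mem_countableBasis hV
      have hset : {a : A | ∃ b ∈ V, (a, b) ∈ t} = Prod.fst '' (t ∩ (Set.univ ×ˢ V)) := by
        ext a
        constructor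
        · rintro ⟨b, hb, hab⟩
          exact ⟨(a, b), ⟨hab, ⟨trivial, hb⟩⟩, rfl⟩
        · rintro ⟨⟨a', b⟩, ⟨hab, ⟨_, hb⟩⟩, rfl⟩
          exact ⟨b, hb, hab⟩
      have : {a : A | ∃ b ∈ V, (a, b) ∈ t} ∈ residual A := by
        rw [hset]
        apply residual_of_dense_open
        · exact isOpenMap_fst _ (ht.inter (isOpen_univ.prod hVo))
        · rw [dense_iff_inter_open]
          intro U hU hUne
          obtain ⟨z, hz1, hz2⟩ := dense_iff_inter_open.1 htd (U ×ˢ V) (hU.prod hVo)
            (hUne.prod hVne)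
          exact ⟨z.1, hz1.1, ⟨z, ⟨hz2, ⟨trivial, hz1.2⟩⟩, rfl⟩⟩
      exact this
    filter_upwards [h1] with a ha
    have : {b : B | (a, b) ∈ t} ∈ residual B := by
      apply residual_of_dense_open
      · exact ht.preimage (by fun_prop : Continuous fun b : B => (a, b))
      · rw [dense_iff_inter_open]
        intro U hU hUne
        obtain ⟨b, hb'⟩ := hUne
        obtain ⟨V, hV, hbV, hVU⟩ := hb.exists_subset_of_mem_open hb' hU
        obtain ⟨b', hb'V, hb't⟩ := ha V hV
        exact ⟨b', hVU hb'V, hb't⟩
    exact this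
  obtain ⟨S, hSo, hSd, hSc, hS⟩ := mem_residual_iff.1 h
  have h2 : ∀ᶠ a in residual A, ∀ t ∈ S, ∀ᶠ b in residual B, (a, b) ∈ t := by
    rw [eventually_countable_ball hSc]
    intro t ht
    exact key t (hSo t ht) (hSd t ht)
  filter_upwards [h2] with a ha
  have h3 : ∀ᶠ b in residual B, ∀ t ∈ S, (a, b) ∈ t := by
    rw [eventually_countable_ball hSc]
    exact ha
  filter_upwards [h3] with b hb
  exact hS (mem_sInter.2 hb)

end Pool.Agent.Lib.MP_2602dd_lc
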