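import Mathlib
import Pool.Agent.Lib.MP_2602dd_lc.KU
import Pool.Agent.Lib.MP_2602dd_lc.BP

/-!
A version of Hjorth's turbulence theorem for translation actions of Polish vector spaces.
-/

set_option autoImplicit false
set_option linter.unusedSectionVars false

open Topology Set Filter TopologicalSpace MeasureTheory

namespace Pool.Agent.Lib.MP_2602dd_lc

/-- Isomorphism of binary relations on the natural numbers by a permutation fixing `0, ..., n-1`. -/
def Rel (n : ℕ) (a b : ℕ → ℕ → Bool) : Prop :=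
  ∃ σ : Equiv.Perm ℕ, (∀ i < n, σ i = i) ∧ ∀ i j, a i j = b (σ i) (σ j)

theorem Rel.refl (n : ℕ) (a : ℕ → ℕ → Bool) : Rel n a a := ⟨1, by simp, by simp⟩

theorem Rel.symm {n : ℕ} {a b : ℕ → ℕ → Bool} (h : Rel n a b) : Rel n b a := by
  obtain ⟨σ, h1, h2⟩ := h
  refine ⟨σ.symm, fun i hi => ?_, fun i j => ?_⟩
  · rw [Equiv.symm_apply_eq]; exact (h1 i hi).symm
  · rw [h2]; simp

theorem Rel.trans {n : ℕ} {a b c : ℕ → ℕ → Bool} (h : Rel n a b) (h' : Rel n b c) : Rel n a c := by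
  obtain ⟨σ, h1, h2⟩ := h
  obtain ⟨τ, h3, h4⟩ := h'
  refine ⟨σ.trans τ, fun i hi => ?_, fun i j => ?_⟩
  · simp [h1 i hi, h3 i hi]
  · rw [h2, h4]; simp

/-- Building sequences by dependent choice. -/
theorem exists_seq_of_step {S : Type*} (Inv : ℕ → S → Prop) (R : ℕ → S → S → Prop)
    (h0 : ∃ s, Inv 0 s) (hstep : ∀ k s, Inv k s → ∃ s', Inv (k + 1) s' ∧ R k s s') :
    ∃ f : ℕ → S, (∀ k, Inv k (f k)) ∧ ∀ k, R k (f k) (f (k + 1)) := by
  classical
  obtain ⟨s0, hs0⟩ := h0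
  choose! nx hnx1 hnx2 using hstep
  let f : ℕ → S := fun k => Nat.rec s0 (fun k s => nx k s) k
  have hf : ∀ k, Inv k (f k) := by
    intro k
    induction k with
    | zero => exact hs0
    | succ k ih => exact hnx1 k _ ih
  exact ⟨f, hf, fun k => hnx2 k _ (hf k)⟩

section Analytic

variable {Z : Type*} [MeasurableSpace Z] [TopologicalSpace Z] [PolishSpace Z] [BorelSpace Z]

/-- The set of `z` such that `a z` is the pullback of `b z` by a permutation extending `p`. -/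
def QSet {n : ℕ} (a b : Z → ℕ → ℕ → Bool) (p : Fin n → ℕ) : Set Z :=
  {z | ∃ σ : Equiv.Perm ℕ, (∀ i : Fin n, σ i = p i) ∧ ∀ i j, a z i j = b z (σ i) (σ j)}

theorem QSet_analytic {n : ℕ} {a b : Z → ℕ → ℕ → Bool} (ha : Measurable a) (hb : Measurable b)
    (p : Fin n → ℕ) : AnalyticSet (QSet a b p) := by
  let S : Set (Z × ((ℕ → ℕ) × (ℕ → ℕ))) :=
    {w | (∀ i, w.2.1 (w.2.2 i) = i) ∧ (∀ i, w.2.2 (w.2.1 i) = i) ∧
      (∀ i : Fin n, w.2.1 i = p i) ∧ ∀ i j, a w.1 i j = b w.1 (w.2.1 i) (w.2.1 j)}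
  have hS : MeasurableSet S := by
    have hev : Measurable (fun w : (ℕ → ℕ) × ℕ => w.1 w.2) :=
      measurable_from_prod_countable_left (fun k => measurable_pi_apply k)
    have hev2 : Measurable (fun w : (ℕ → ℕ → Bool) × (ℕ × ℕ) => w.1 w.2.1 w.2.2) :=
      measurable_from_prod_countable_left
        (fun k => (measurable_pi_apply k.2).comp (measurable_pi_apply k.1))
    have h1 : Measurable (fun w : Z × ((ℕ → ℕ) × (ℕ → ℕ)) => w.2.1) :=
      measurable_fst.comp measurable_snd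
    have h2 : Measurable (fun w : Z × ((ℕ → ℕ) × (ℕ → ℕ)) => w.2.2) :=
      measurable_snd.comp measurable_snd
    have h1i : ∀ i : ℕ, Measurable (fun w : Z × ((ℕ → ℕ) × (ℕ → ℕ)) => w.2.1 i) :=
      fun i => (measurable_pi_apply i).comp h1
    have h2i : ∀ i : ℕ, Measurable (fun w : Z × ((ℕ → ℕ) × (ℕ → ℕ)) => w.2.2 i) :=
      fun i => (measurable_pi_apply i).comp h2
    have h12 : ∀ i : ℕ, Measurable (fun w : Z × ((ℕ → ℕ) × (ℕ → ℕ)) => w.2.1 (w.2.2 i)) :=
      fun i => hev.comp (h1.prodMk (h2i i))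
    have h21 : ∀ i : ℕ, Measurable (fun w : Z × ((ℕ → ℕ) × (ℕ → ℕ)) => w.2.2 (w.2.1 i)) :=
      fun i => hev.comp (h2.prodMk (h1i i))
    have ha' : ∀ i j : ℕ, Measurable (fun w : Z × ((ℕ → ℕ) × (ℕ → ℕ)) => a w.1 i j) :=
      fun i j => (measurable_pi_apply j).comp ((measurable_pi_apply i).comp
        (ha.comp measurable_fst))
    have hb' : ∀ i j : ℕ,
        Measurable (fun w : Z × ((ℕ → ℕ) × (ℕ → ℕ)) => b w.1 (w.2.1 i) (w.2.1 j)) :=
      fun i j => hev2.comp ((hb.comp measurable_fst).prodMk ((h1i i).prodMk (h1i j)))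
    have e1 : MeasurableSet {w : Z × ((ℕ → ℕ) × (ℕ → ℕ)) | ∀ i, w.2.1 (w.2.2 i) = i} := by
      rw [ofPred_forall]
      exact MeasurableSet.iInter fun i => measurableSet_eq_fun (h12 i) measurable_const
    have e2 : MeasurableSet {w : Z × ((ℕ → ℕ) × (ℕ → ℕ)) | ∀ i, w.2.2 (w.2.1 i) = i} := by
      rw [ofPred_forall]
      exact MeasurableSet.iInter fun i => measurableSet_eq_fun (h21 i) measurable_const
    have e3 : MeasurableSet {w : Z × ((ℕ → ℕ) × (ℕ → ℕ)) | ∀ i : Fin n, w.2.1 i = p i} := by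
      rw [ofPred_forall]
      exact MeasurableSet.iInter fun i => measurableSet_eq_fun (h1i i) measurable_const
    have e4 : MeasurableSet {w : Z × ((ℕ → ℕ) × (ℕ → ℕ)) |
        ∀ i j, a w.1 i j = b w.1 (w.2.1 i) (w.2.1 j)} := by
      rw [ofPred_forall]
      refine MeasurableSet.iInter fun i => ?_
      rw [ofPred_forall]
      exact MeasurableSet.iInter fun j => measurableSet_eq_fun (ha' i j) (hb' i j)
    exact e1.inter (e2.inter (e3.inter e4))
  have hQ : QSet a b p = Prod.fst '' S := by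
    ext z
    constructor
    · rintro ⟨σ, h1, h2⟩
      refine ⟨(z, (σ, σ.symm)), ⟨?_, ?_, ?_, ?_⟩, rfl⟩
      · intro i; simp
      · intro i; simp
      · exact h1
      · exact h2
    · rintro ⟨⟨z', s, t⟩, ⟨h1, h2, h3, h4⟩, rfl⟩
      exact ⟨⟨s, t, h2, h1⟩, h3, h4⟩
  rw [hQ]
  exact hS.analyticSet_image measurable_fst

end Analytic

section Turbulence

variable {X G : Type*}
  [AddCommGroup X] [Module ℝ X] [TopologicalSpace X] [IsTopologicalAddGroup X]
  [ContinuousSMul ℝ X] [LocallyConvexSpace ℝ X] [PolishSpace X] [MeasurableSpace X] [BorelSpace X]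
  [AddCommGroup G] [Module ℝ G] [TopologicalSpace G] [IsTopologicalAddGroup G]
  [ContinuousSMul ℝ G] [PolishSpace G] [MeasurableSpace G] [BorelSpace G]

/-- Local `n`-invariance on the box `U × V`. -/
def Good (ι : G →L[ℝ] X) (F : X → ℕ → ℕ → Bool) (n : ℕ) (U : Set X) (V : Set G) : Prop :=
  ∀ᶠ z in residual (X × G), z.1 ∈ U → z.2 ∈ V → Rel n (F z.1) (F (z.1 + ι z.2))

theorem exists_good (ι : G →L[ℝ] X) (F : X → ℕ → ℕ → Bool) (hF : Measurable F)
    (hinv : ∀ x g, Rel 0 (F x) (F (x + ι g))) (n : ℕ) (U : Set X) (hU : IsOpen U)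
    (hUne : U.Nonempty) :
    ∃ U' : Set X, IsOpen U' ∧ U'.Nonempty ∧ U' ⊆ U ∧ ∃ V : Set G, IsOpen V ∧ (0 : G) ∈ V ∧
      Good ι F n U' V := by
  have hact : Continuous (fun z : X × G => z.1 + ι z.2) := by fun_prop
  -- small boxes
  obtain ⟨x₀, hx₀⟩ := hUne
  have hpre : IsOpen ((fun z : X × G => z.1 + ι z.2) ⁻¹' U) := hU.preimage hact
  obtain ⟨U₁, O, hU₁, hO, hxU₁, h0O, hsub⟩ := isOpen_prod_iff.1 hpre x₀ 0 (by simpa using hx₀)
  -- the analytic pieces
  let Q : (Fin n → ℕ) → Set (X × G) := fun p =>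
    QSet (fun z : X × G => F (z.1 + ι z.2)) (fun z : X × G => F z.1) p
  have hQan : ∀ p, AnalyticSet (Q p) := fun p =>
    QSet_analytic (hF.comp hact.measurable) (hF.comp measurable_fst) p
  have hQbp : ∀ p, ∃ P : Set (X × G), IsOpen P ∧ Q p =ᵇ P := fun p =>
    (analyticSet_baireMeasurable (hQan p)).residualEq_isOpen
  choose P hPo hPQ using hQbp
  have hQcov : ∀ z : X × G, ∃ p, z ∈ Q p := by
    intro z
    obtain ⟨σ, _, h2⟩ := (hinv z.1 z.2).symm
    exact ⟨fun i => σ i, σ, fun i => rfl, h2⟩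
  have hall : ∀ᶠ z in residual (X × G), ∀ p, z ∈ Q p ↔ z ∈ P p := by
    rw [eventually_countable_forall]
    intro p
    exact eventuallyEq_set.1 (hPQ p)
  have hbox : (U₁ ×ˢ O).Nonempty := ⟨(x₀, 0), hxU₁, h0O⟩
  obtain ⟨z₁, hz₁box, hz₁⟩ : ∃ z ∈ U₁ ×ˢ O, ∀ p, z ∈ Q p ↔ z ∈ P p := by
    obtain ⟨z, hz1, hz2⟩ := (dense_of_mem_residual hall).inter_open_nonempty _
      (hU₁.prod hO) hbox
    exact ⟨z, hz1, hz2⟩
  obtain ⟨p, hp⟩ := hQcov z₁
  have hp' : z₁ ∈ P p := (hz₁ p).1 hp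
  have hint : IsOpen (P p ∩ U₁ ×ˢ O) := (hPo p).inter (hU₁.prod hO)
  obtain ⟨U₂, O₂, hU₂, hO₂, hxU₂, hgO₂, hsub₂⟩ := isOpen_prod_iff.1 hint z₁.1 z₁.2 ⟨hp', hz₁box⟩
  have hQ2 : ∀ᶠ z in residual (X × G), z.1 ∈ U₂ → z.2 ∈ O₂ → z ∈ Q p := by
    filter_upwards [hall] with z hz h1 h2
    exact (hz p).2 (hsub₂ (show (z.1, z.2) ∈ U₂ ×ˢ O₂ from ⟨h1, h2⟩)).1
  -- choose a generic `g₀`
  have hswap : ∀ᶠ z in residual (G × X), z.2 ∈ U₂ → z.1 ∈ O₂ → (z.2, z.1) ∈ Q p := by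
    have ht : Tendsto (Prod.swap : G × X → X × G) (residual _) (residual _) :=
      tendsto_residual_of_isOpenMap continuous_swap (Homeomorph.prodComm G X).isOpenMap
    exact ht.eventually hQ2
  have hku := kuratowski_ulam hswap
  obtain ⟨g₀, hg₀O, hg₀⟩ : ∃ g ∈ O₂, ∀ᶠ x in residual X, x ∈ U₂ → g ∈ O₂ → (x, g) ∈ Q p := by
    obtain ⟨g, hg1, hg2⟩ := (dense_of_mem_residual hku).inter_open_nonempty _ hO₂ ⟨z₁.2, hgO₂⟩
    exact ⟨g, hg1, hg2⟩
  refine ⟨(fun x : X => x - ι g₀) ⁻¹' U₂, hU₂.preimage (by fun_prop), ?_, ?_,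
    (fun h : G => g₀ + h) ⁻¹' O₂, hO₂.preimage (by fun_prop), by simpa using hg₀O, ?_⟩
  · exact ⟨z₁.1 + ι g₀, by simpa using hxU₂⟩
  · intro x hx
    have h1 : ((x - ι g₀, g₀) : X × G) ∈ U₂ ×ˢ O₂ := ⟨hx, hg₀O⟩
    have h2 := (hsub₂ h1).2
    have h3 := hsub h2
    simpa using h3
  · -- first pullback
    have e1 : ∀ᶠ z in residual (X × G), z.1 - ι g₀ ∈ U₂ → (z.1 - ι g₀, g₀) ∈ Q p := by
      have ht1 : Tendsto (Prod.fst : X × G → X) (residual _) (residual _) :=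
        tendsto_residual_of_isOpenMap continuous_fst isOpenMap_fst
      have ht2 : Tendsto (fun x : X => x - ι g₀) (residual X) (residual X) :=
        tendsto_residual_of_isOpenMap (by fun_prop) (Homeomorph.subRight (ι g₀)).isOpenMap
      have h3 := (ht2.comp ht1).eventually hg₀
      filter_upwards [h3] with z hz h1
      exact hz h1 hg₀O
    have e2 : ∀ᶠ z in residual (X × G), z.1 - ι g₀ ∈ U₂ → g₀ + z.2 ∈ O₂ →
        (z.1 - ι g₀, g₀ + z.2) ∈ Q p := by
      have ht : Tendsto (fun z : X × G => (z.1 - ι g₀, g₀ + z.2)) (residual _) (residual _) :=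
        tendsto_residual_of_isOpenMap (by fun_prop)
          ((Homeomorph.subRight (ι g₀)).prodCongr (Homeomorph.addLeft g₀)).isOpenMap
      exact ht.eventually hQ2
    filter_upwards [e1, e2] with z h1 h2 hz1 hz2
    obtain ⟨σ, hσ1, hσ2⟩ := h1 hz1
    obtain ⟨τ, hτ1, hτ2⟩ := h2 hz1 hz2
    have ea : z.1 - ι g₀ + ι g₀ = z.1 := by abel
    have eb : z.1 - ι g₀ + ι (g₀ + z.2) = z.1 + ι z.2 := by rw [map_add]; abel
    simp only [ea] at hσ2
    simp only [eb] at hτ2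
    refine ⟨σ.trans τ.symm, fun i hi => ?_, fun i j => ?_⟩
    · have h3 := hσ1 ⟨i, hi⟩
      have h4 := hτ1 ⟨i, hi⟩
      simp only at h3 h4
      rw [Equiv.trans_apply, h3, Equiv.symm_apply_eq, h4]
    · rw [hσ2, hτ2]; simp

/-- Moving a generic point inside a convex good set. -/
theorem exists_move (ι : G →L[ℝ] X) (hι : DenseRange ι) (F : X → ℕ → ℕ → Bool)
    (n : ℕ) (Cs : Set X) (hCs : ∀ x ∈ Cs, ∀ᶠ h in residual G, x + ι h ∈ Cs)
    (U : Set X) (hU : IsOpen U) (hUc : Convex ℝ U) (V : Set G) (hV : IsOpen V) (h0V : (0 : G) ∈ V)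
    (hgood : ∀ x ∈ Cs, x ∈ U → ∀ᶠ h in residual G, h ∈ V → Rel n (F x) (F (x + ι h)))
    (x : X) (hx : x ∈ Cs) (hxU : x ∈ U) (U' : Set X) (hU' : IsOpen U') (hU'ne : U'.Nonempty)
    (hU'U : U' ⊆ U) :
    ∃ x' ∈ Cs, x' ∈ U' ∧ Rel n (F x) (F x') := by
  -- the target displacement
  obtain ⟨g, hg⟩ : ∃ g : G, x + ι g ∈ U' := by
    have hopen : IsOpen ((fun y : X => x + y) ⁻¹' U') := hU'.preimage (by fun_prop)
    obtain ⟨u, hu⟩ := hU'ne
    have hne : ((fun y : X => x + y) ⁻¹' U').Nonempty := ⟨u - x, by simpa using hu⟩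
    obtain ⟨y, hy, g, rfl⟩ := hι.inter_open_nonempty _ hopen hne
    exact ⟨g, hy⟩
  -- small step size
  obtain ⟨N, hN0, hN⟩ : ∃ N : ℕ, 0 < N ∧ ((1 / N : ℝ) • g) ∈ V := by
    have ht : Tendsto (fun N : ℕ => ((1 / ((N : ℝ) + 1)) • g : G)) atTop (𝓝 ((0 : ℝ) • g)) :=
      tendsto_one_div_add_atTop_nhds_zero_nat.smul_const g
    rw [zero_smul] at ht
    obtain ⟨N, hN⟩ := (ht.eventually (hV.mem_nhds h0V)).exists
    exact ⟨N + 1, Nat.succ_pos N, by push_cast; exact hN⟩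
  have hNr : (0 : ℝ) < N := by exact_mod_cast hN0
  have hpath : ∀ i : ℕ, i ≤ N → x + ι (((i : ℝ) / N) • g) ∈ U := by
    intro i hi
    rw [map_smul]
    refine hUc.add_smul_mem hxU (hU'U hg) ⟨by positivity, ?_⟩
    rw [div_le_one hNr]; exact_mod_cast hi
  have claim : ∀ i : ℕ, i ≤ N → ∀ O : Set X, IsOpen O → x + ι (((i : ℝ) / N) • g) ∈ O →
      ∃ x' ∈ Cs, x' ∈ U ∧ x' ∈ O ∧ Rel n (F x) (F x') := by
    intro i
    induction i with
    | zero =>
      intro _ O hO hxO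
      refine ⟨x, hx, hxU, ?_, Rel.refl _ _⟩
      simpa using hxO
    | succ i ih =>
      intro hi O hO hxO
      have hOU : IsOpen (O ∩ U) := hO.inter hU
      have hact : Continuous (fun z : X × G => z.1 + ι z.2) := by fun_prop
      have hpre : IsOpen ((fun z : X × G => z.1 + ι z.2) ⁻¹' (O ∩ U)) := hOU.preimage hact
      have hmem : (x + ι (((i : ℝ) / N) • g), (1 / N : ℝ) • g) ∈
          (fun z : X × G => z.1 + ι z.2) ⁻¹' (O ∩ U) := by
        have e : x + ι (((i : ℝ) / N) • g) + ι ((1 / N : ℝ) • g) =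
            x + ι ((((i + 1 : ℕ) : ℝ) / N) • g) := by
          rw [add_assoc, ← map_add, ← add_smul]
          congr 3
          push_cast
          ring
        show x + ι (((i : ℝ) / N) • g) + ι ((1 / N : ℝ) • g) ∈ O ∩ U
        rw [e]
        exact ⟨hxO, hpath _ hi⟩
      obtain ⟨O', V', hO', hV', hxO', hgV', hsub⟩ := isOpen_prod_iff.1 hpre _ _ hmem
      obtain ⟨x', hx'C, hx'U, hx'O', hrel⟩ := ih (by omega) O' hO' hxO'
      have e1 := hgood x' hx'C hx'U
      have e2 := hCs x' hx'C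
      obtain ⟨h, hhV, hh⟩ := (dense_of_mem_residual (e1.and e2)).inter_open_nonempty _
        (hV'.inter hV) ⟨_, hgV', hN⟩
      have hmem2 : x' + ι h ∈ O ∩ U := hsub (show (x', h) ∈ O' ×ˢ V' from ⟨hx'O', hhV.1⟩)
      exact ⟨x' + ι h, hh.2, hmem2.2, hmem2.1, hrel.trans (hh.1 hhV.2)⟩
  obtain ⟨x', h1, _, h3, h4⟩ := claim N le_rfl U' hU' (by
    rw [div_self (ne_of_gt hNr), one_smul]; exact hg)
  exact ⟨x', h1, h3, h4⟩

theorem residual_translate {g : G} {P : G → Prop} (h : ∀ᶠ h in residual G, P h) :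
    ∀ᶠ h in residual G, P (g + h) := by
  have ht : Tendsto (fun h : G => g + h) (residual G) (residual G) :=
    tendsto_residual_of_isOpenMap (by fun_prop) (Homeomorph.addLeft g).isOpenMap
  exact ht.eventually h

/-- The invariant hull of a residual set. -/
theorem exists_invariant_core (ι : G →L[ℝ] X) (C : Set X) (hC : C ∈ residual X) :
    ∃ Cs ⊆ C, Cs ∈ residual X ∧ ∀ x ∈ Cs, ∀ᶠ h in residual G, x + ι h ∈ Cs := by
  have hact : Tendsto (fun z : X × G => z.1 + ι z.2) (residual _) (residual _) := by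
    let e : X × G ≃ₜ X × G :=
      { toFun := fun z => (z.1 + ι z.2, z.2)
        invFun := fun z => (z.1 - ι z.2, z.2)
        left_inv := fun z => by simp
        right_inv := fun z => by simp
        continuous_toFun := by fun_prop
        continuous_invFun := by fun_prop }
    have : (fun z : X × G => z.1 + ι z.2) = Prod.fst ∘ e := rfl
    rw [this]
    exact tendsto_residual_of_isOpenMap (by fun_prop) (isOpenMap_fst.comp e.isOpenMap)
  have h1 : ∀ᶠ z in residual (X × G), z.1 + ι z.2 ∈ C := hact.eventually hC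
  have h2 := kuratowski_ulam h1
  refine ⟨{x | x ∈ C ∧ ∀ᶠ h in residual G, x + ι h ∈ C}, fun x hx => hx.1, ?_, ?_⟩
  · filter_upwards [hC, h2] with x hx1 hx2
    exact ⟨hx1, hx2⟩
  · rintro x ⟨_, hx2⟩
    filter_upwards [hx2] with h hh
    refine ⟨hh, ?_⟩
    have := residual_translate (g := h) hx2
    filter_upwards [this] with h' hh'
    rw [add_assoc, ← map_add]
    exact hh'

/-- A measurable map into relations is continuous on a residual set. -/
theorem exists_residual_continuity (F : X → ℕ → ℕ → Bool) (hF : Measurable F) :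
    ∃ C ∈ residual X, ∀ z ∈ C, ∀ i j, ∃ O : Set X, IsOpen O ∧ z ∈ O ∧
      ∀ x ∈ C, x ∈ O → F x i j = F z i j := by
  have h1 : ∀ i j : ℕ, ∀ b : Bool, ∃ O : Set X, IsOpen O ∧
      ({x | F x i j = b} : Set X) =ᵇ O := by
    intro i j b
    have : MeasurableSet {x | F x i j = b} :=
      measurableSet_eq_fun ((measurable_pi_apply j).comp ((measurable_pi_apply i).comp hF))
        measurable_const
    exact this.residualEq_isOpen
  choose O hO hOe using h1
  refine ⟨{x | ∀ i j b, F x i j = b ↔ x ∈ O i j b}, ?_, ?_⟩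
  · have : ∀ᶠ x in residual X, ∀ i j b, F x i j = b ↔ x ∈ O i j b := by
      rw [eventually_countable_forall]; intro i
      rw [eventually_countable_forall]; intro j
      rw [eventually_countable_forall]; intro b
      exact eventuallyEq_set.1 (hOe i j b)
    exact this
  · intro z hz i j
    refine ⟨O i j (F z i j), hO _ _ _, (hz i j _).1 rfl, ?_⟩
    intro x hx hxO
    exact (hx i j _).2 hxO

/-- The main theorem: for an invariant measurable map into relations, each generic point has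
isomorphic values at some point of any residual set. -/
theorem turbulence_main (ι : G →L[ℝ] X) (hι : DenseRange ι) (F : X → ℕ → ℕ → Bool)
    (hF : Measurable F) (hinv : ∀ x g, Rel 0 (F x) (F (x + ι g))) :
    ∃ Cs ∈ residual X, ∀ x ∈ Cs, ∀ D ∈ residual X, ∃ z ∈ D, Rel 0 (F x) (F z) := by
  classical
  -- countable families of good open sets
  have hT : ∀ n : ℕ, ∃ T : Set (Set X), T.Countable ∧
      (∀ U ∈ T, IsOpen U ∧ ∃ V : Set G, IsOpen V ∧ (0 : G) ∈ V ∧ Good ι F n U V) ∧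
      Dense (⋃₀ T) ∧ IsOpen (⋃₀ T) := by
    intro n
    let S : Set (Set X) := {U | IsOpen U ∧ ∃ V : Set G, IsOpen V ∧ (0 : G) ∈ V ∧ Good ι F n U V}
    obtain ⟨T, hTc, hTS, hTeq⟩ := isOpen_sUnion_countable S (fun s hs => hs.1)
    refine ⟨T, hTc, fun U hU => hTS hU, ?_, ?_⟩
    · rw [hTeq, dense_iff_inter_open]
      intro U hU hUne
      obtain ⟨U', hU', hU'ne, hU'U, V, hV, h0V, hg⟩ := exists_good ι F hF hinv n U hU hUne
      obtain ⟨u, hu⟩ := hU'ne
      exact ⟨u, hU'U hu, U', ⟨hU', V, hV, h0V, hg⟩, hu⟩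
    · exact isOpen_sUnion fun U hU => (hTS hU).1
  choose T hTc hTg hTd hTo using hT
  choose! V hV using fun n U (hU : U ∈ T n) => (hTg n U hU).2
  have hC1 : ∀ᶠ x in residual X, ∀ n, ∀ U ∈ T n, x ∈ U →
      ∀ᶠ h in residual G, h ∈ V n U → Rel n (F x) (F (x + ι h)) := by
    rw [eventually_countable_forall]; intro n
    rw [eventually_countable_ball (hTc n)]; intro U hU
    have h1 := kuratowski_ulam (hV n U hU).2.2
    filter_upwards [h1] with x hx hxU
    filter_upwards [hx] with h hh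
    exact hh hxU
  have hC0 : ∀ᶠ x in residual X, ∀ n, x ∈ ⋃₀ (T n) := by
    rw [eventually_countable_forall]; intro n
    exact residual_of_dense_open (hTo n) (hTd n)
  obtain ⟨CF, hCF, hcont⟩ := exists_residual_continuity F hF
  obtain ⟨Cs, hCsC, hCsr, hCsinv⟩ := exists_invariant_core ι _
    (inter_mem (inter_mem hC1 hC0) hCF)
  refine ⟨Cs, hCsr, ?_⟩
  intro x hx D hD
  obtain ⟨t, htD, htG, htd⟩ := mem_residual.1 (inter_mem hD hCF)
  obtain ⟨O, hO, rfl⟩ := isGδ_iff_eq_iInter_nat.1 htG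
  have hOd : ∀ k, Dense (O k) := fun k => htd.mono (iInter_subset _ k)
  let _ := upgradeIsCompletelyMetrizable X
  -- small convex good neighbourhoods
  have hsmall : ∀ y ∈ Cs, ∀ n : ℕ, ∀ W : Set X, IsOpen W → y ∈ W →
      ∃ U : Set X, IsOpen U ∧ Convex ℝ U ∧ y ∈ U ∧ closure U ⊆ W ∧ ∃ U₀ ∈ T n, U ⊆ U₀ := by
    intro y hy n W hW hyW
    obtain ⟨U₀, hU₀, hyU₀⟩ := (hCsC hy).1.2 n
    have hnhds : W ∩ U₀ ∈ 𝓝 y := (hW.inter (hTg n U₀ hU₀).1).mem_nhds ⟨hyW, hyU₀⟩
    obtain ⟨K, hK, hKc, hKsub⟩ := exists_mem_nhds_isClosed_subset hnhds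
    obtain ⟨A, ⟨hA, hAc⟩, hAK⟩ := (LocallyConvexSpace.convex_basis (𝕜 := ℝ) y).mem_iff.1 hK
    have hAK' : closure (interior A) ⊆ W ∩ U₀ :=
      (closure_minimal (interior_subset.trans hAK) hKc).trans hKsub
    exact ⟨interior A, isOpen_interior, hAc.interior, mem_interior_iff_mem_nhds.2 hA,
      hAK'.trans inter_subset_left, U₀, hU₀, subset_closure.trans (hAK'.trans inter_subset_right)⟩
  let Inv : ℕ → (X × Equiv.Perm ℕ × Set X) → Prop := fun k s =>
    s.1 ∈ Cs ∧ IsOpen s.2.2 ∧ Convex ℝ s.2.2 ∧ s.1 ∈ s.2.2 ∧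
    (∃ n, (∃ U₀ ∈ T n, s.2.2 ⊆ U₀) ∧ ∀ i ≤ k, i < n ∧ s.2.1 i < n) ∧
    ∀ i j, F x i j = F s.1 (s.2.1 i) (s.2.1 j)
  let R : ℕ → (X × Equiv.Perm ℕ × Set X) → (X × Equiv.Perm ℕ × Set X) → Prop := fun k s s' =>
    s'.1 ∈ s.2.2 ∧ closure s'.2.2 ⊆ O k ∧ s'.2.2 ⊆ s.2.2 ∧
    s'.2.2 ⊆ Metric.ball s'.1 ((1 / 2 : ℝ) ^ k) ∧
    ∀ i ≤ k, s'.2.1 i = s.2.1 i ∧ s'.2.1.symm i = s.2.1.symm i
  have hbound : ∀ (k : ℕ) (σ : Equiv.Perm ℕ), ∃ n, ∀ i ≤ k, i < n ∧ σ i < n := by
    intro k σ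
    refine ⟨(Finset.range (k + 1)).sup (fun i => i + σ i) + 1, fun i hi => ?_⟩
    have h1 : i + σ i ≤ (Finset.range (k + 1)).sup (fun i => i + σ i) :=
      Finset.le_sup (f := fun i => i + σ i) (Finset.mem_range.2 (by omega))
    constructor <;> omega
  have h0 : ∃ s, Inv 0 s := by
    obtain ⟨n, hn⟩ := hbound 0 1
    obtain ⟨U, hU, hUc, hxU, _, hU₀⟩ := hsmall x hx n univ isOpen_univ (mem_univ x)
    exact ⟨(x, 1, U), hx, hU, hUc, hxU, ⟨n, hU₀, hn⟩, fun i j => rfl⟩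
  have hstep : ∀ k s, Inv k s → ∃ s', Inv (k + 1) s' ∧ R k s s' := by
    rintro k ⟨y, σ, U⟩ ⟨hy, hU, hUc, hyU, ⟨n, ⟨U₀, hU₀, hUU₀⟩, hn⟩, hF'⟩
    simp only at hy hU hUc hyU hUU₀ hn hF'
    have hne : (U ∩ O k).Nonempty := (hOd k).inter_open_nonempty U hU ⟨y, hyU⟩
    obtain ⟨y', hy', hy'U, hrel⟩ := exists_move ι hι F n Cs hCsinv U hU hUc (V n U₀)
      (hV n U₀ hU₀).1 (hV n U₀ hU₀).2.1
      (fun x' hx' hx'U => (hCsC hx').1.1 n U₀ hU₀ (hUU₀ hx'U)) y hy hyU (U ∩ O k)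
      (hU.inter (hO k)) hne inter_subset_left
    obtain ⟨ρ, hρ1, hρ2⟩ := hrel
    obtain ⟨n', hn'⟩ := hbound (k + 1) (σ.trans ρ)
    obtain ⟨U', hU', hU'c, hy'U', hcl, hU₀'⟩ := hsmall y' hy' n'
      (U ∩ O k ∩ Metric.ball y' ((1 / 2 : ℝ) ^ k))
      ((hU.inter (hO k)).inter Metric.isOpen_ball) ⟨hy'U, Metric.mem_ball_self (by positivity)⟩
    refine ⟨(y', σ.trans ρ, U'), ⟨hy', hU', hU'c, hy'U', ⟨n', hU₀', hn'⟩, ?_⟩, hy'U.1, ?_, ?_, ?_, ?_⟩
    · intro i j
      simp only [Equiv.trans_apply]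
      rw [hF', hρ2]
    · exact hcl.trans (inter_subset_left.trans inter_subset_right)
    · exact subset_closure.trans (hcl.trans (inter_subset_left.trans inter_subset_left))
    · exact subset_closure.trans (hcl.trans inter_subset_right)
    · intro i hi
      constructor
      · simp only [Equiv.trans_apply]
        exact hρ1 _ (hn i hi).2
      · simp only [Equiv.symm_trans_apply]
        congr 1
        rw [Equiv.symm_apply_eq]
        exact (hρ1 _ (hn i hi).1).symm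
  obtain ⟨f, hfI, hfR⟩ := exists_seq_of_step Inv R h0 hstep
  -- the limit point
  have hcau : CauchySeq (fun k => (f (k + 1)).1) := by
    apply cauchySeq_of_le_geometric (1 / 2) 1 (by norm_num)
    intro k
    have h1 : (f (k + 2)).1 ∈ (f (k + 1)).2.2 := (hfR (k + 1)).1
    have h2 := (hfR k).2.2.2.1 h1
    rw [Metric.mem_ball, dist_comm] at h2
    rw [one_mul]
    exact h2.le
  obtain ⟨z, hz⟩ := cauchySeq_tendsto_of_complete hcau
  have hz' : Tendsto (fun k => (f k).1) atTop (𝓝 z) := (tendsto_add_atTop_iff_nat 1).1 hz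
  have hanti : ∀ k m, k ≤ m → (f m).2.2 ⊆ (f k).2.2 := by
    intro k m hkm
    induction m, hkm using Nat.le_induction with
    | base => exact subset_rfl
    | succ m _ ih => exact (hfR m).2.2.1.trans ih
  have hzO : ∀ k, z ∈ O k := by
    intro k
    apply (hfR k).2.1
    apply mem_closure_of_tendsto hz'
    filter_upwards [eventually_ge_atTop (k + 1)] with m hm
    exact hanti (k + 1) m hm (hfI m).2.2.2.1
  have hzR := htD (mem_iInter.2 hzO)
  refine ⟨z, hzR.1, ?_⟩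
  -- the limit permutation
  have hstab : ∀ i k, i ≤ k → (f k).2.1 i = (f i).2.1 i ∧ (f k).2.1.symm i = (f i).2.1.symm i := by
    intro i k hik
    induction k, hik using Nat.le_induction with
    | base => exact ⟨rfl, rfl⟩
    | succ k hk ih =>
      have := (hfR k).2.2.2.2 i hk
      exact ⟨this.1.trans ih.1, this.2.trans ih.2⟩
  let σ : Equiv.Perm ℕ :=
    { toFun := fun i => (f i).2.1 i
      invFun := fun i => (f i).2.1.symm i
      left_inv := by
        intro i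
        set m := (f i).2.1 i with hm
        have h1 := (hstab i (max i m) (le_max_left _ _)).1
        have h2 := (hstab m (max i m) (le_max_right _ _)).2
        show (f m).2.1.symm m = i
        rw [← h2, Equiv.symm_apply_eq, h1]
      right_inv := by
        intro i
        set m := (f i).2.1.symm i with hm
        have h1 := (hstab i (max i m) (le_max_left _ _)).2
        have h2 := (hstab m (max i m) (le_max_right _ _)).1
        show (f m).2.1 m = i
        rw [← h2, ← Equiv.eq_symm_apply, h1] }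
  refine ⟨σ, by simp, fun i j => ?_⟩
  obtain ⟨O', hO', hzO', hO'F⟩ := hcont z hzR.2 (σ i) (σ j)
  have hev : ∀ᶠ k in atTop, (f k).1 ∈ O' := hz'.eventually (hO'.mem_nhds hzO')
  obtain ⟨k, hk1, hk2⟩ := (hev.and (eventually_ge_atTop (max i j))).exists
  have e1 := (hfI k).2.2.2.2.2 i j
  rw [(hstab i k (le_trans (le_max_left _ _) hk2)).1,
    (hstab j k (le_trans (le_max_right _ _) hk2)).1] at e1
  rw [e1]
  exact hO'F _ (hCsC (hfI k).1).2 hk1

end Turbulence

end Pool.Agent.Lib.MP_2602dd_lc
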