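import Mathlib
import Pool.Agent.Lib.MP_2602dd_lc.Turb
import Pool.Agent.Lib.MP_2602dd_lc.Rig

/-!
Non-classifiability of the family of skew products by countable structures.
-/

set_option autoImplicit false

open Topology Set Filter MeasureTheory TopologicalSpace

namespace Pool.Agent.Lib.MP_2602dd_lc

/-- The acting group. -/
abbrev GG : Type := lp (fun _ : ℕ => ℝ) 1

/-- The inclusion of `GG` in the space of all sequences. -/
noncomputable def iota : GG →L[ℝ] (ℕ → ℝ) :=
  ContinuousLinearMap.pi (fun i => lp.evalCLM ℝ (fun _ : ℕ => ℝ) 1 i)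

theorem iota_apply (g : GG) (i : ℕ) : iota g i = g i := rfl

instance : SeparableSpace GG := by
  have h1 : IsSeparable (Submodule.span ℝ (range fun i : ℕ => (lp.single 1 i (1 : ℝ) : GG)) :
      Set GG) := (countable_range _).isSeparable.span
  have h2 : IsSeparable (closure (Submodule.span ℝ
      (range fun i : ℕ => (lp.single 1 i (1 : ℝ) : GG)) : Set GG)) := h1.closure
  have h3 : closure (Submodule.span ℝ
      (range fun i : ℕ => (lp.single 1 i (1 : ℝ) : GG)) : Set GG) = univ := by
    rw [eq_univ_iff_forall]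
    intro f
    have hs := lp.hasSum_single (p := 1) ENNReal.one_ne_top f
    refine mem_closure_of_tendsto hs (Eventually.of_forall fun s => ?_)
    refine Submodule.sum_mem _ fun i _ => ?_
    have : (lp.single 1 i (f i) : GG) = f i • (lp.single 1 i (1 : ℝ) : GG) := by
      ext j
      by_cases hj : j = i
      · subst hj; simp
      · simp [lp.single_apply_ne, hj]
    rw [this]
    exact Submodule.smul_mem _ _ (Submodule.subset_span ⟨i, rfl⟩)
  rw [h3] at h2
  exact isSeparable_univ_iff.1 h2

noncomputable instance : MeasurableSpace GG := borel GG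
instance : BorelSpace GG := ⟨rfl⟩

theorem denseRange_iota : DenseRange iota := by
  rw [DenseRange, dense_iff_inter_open]
  intro U hU hUne
  obtain ⟨x, hx⟩ := hUne
  rw [isOpen_pi_iff] at hU
  obtain ⟨I, u, hu, hsub⟩ := hU x hx
  classical
  let g : GG := ∑ i ∈ I, (lp.single 1 i (x i) : GG)
  refine ⟨iota g, hsub ?_, g, rfl⟩
  intro i hi
  have : iota g i = x i := by
    rw [iota_apply]
    have h1 : (g : ℕ → ℝ) i = ∑ j ∈ I, (lp.single 1 j (x j) : GG) i := by
      simp only [g]
      rw [lp.coeFn_sum, Finset.sum_apply]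
    rw [h1, Finset.sum_eq_single i]
    · simp
    · intro j _ hji
      rw [lp.single_apply_ne]
      exact hji.symm
    · intro h; exact absurd hi h
  rw [this]
  exact (hu i hi).2

/-- The clamp of a real number to the unit interval. -/
noncomputable def clamp (r : ℝ) : ℝ := max 0 (min 1 r)

theorem continuous_clamp : Continuous clamp := by unfold clamp; fun_prop

theorem abs_clamp_le (r : ℝ) : |clamp r| ≤ 1 := by
  rw [clamp, abs_of_nonneg (le_max_left _ _)]
  exact max_le (by norm_num) (min_le_left _ _)

theorem abs_clamp_sub_le (r s : ℝ) : |clamp r - clamp s| ≤ |r - s| := by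
  calc |clamp r - clamp s| ≤ max |(0 : ℝ) - 0| |min 1 r - min 1 s| :=
        abs_max_sub_max_le_max _ _ _ _
    _ = |min 1 r - min 1 s| := by simp
    _ ≤ max |(1 : ℝ) - 1| |r - s| := abs_min_sub_min_le_max _ _ _ _
    _ = |r - s| := by simp

theorem clamp_zero : clamp 0 = 0 := by simp [clamp]
theorem clamp_one : clamp 1 = 1 := by simp [clamp]

/-- The amplitudes. -/
noncomputable def amp (x : ℕ → ℝ) (i : ℕ) : ℝ := if i % 2 = 0 then clamp (x (i / 2)) else 1

theorem amp_even (x : ℕ → ℝ) (k : ℕ) : amp x (2 * k) = clamp (x k) := by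
  simp [amp]

theorem amp_odd (x : ℕ → ℝ) (k : ℕ) : amp x (2 * k + 1) = 1 := by
  have : (2 * k + 1) % 2 = 1 := by omega
  simp [amp, this]

theorem abs_amp_le (x : ℕ → ℝ) (i : ℕ) : |amp x i| ≤ 1 := by
  rw [amp]
  split_ifs
  · exact abs_clamp_le _
  · simp

theorem continuous_amp (i : ℕ) : Continuous fun x : ℕ → ℝ => amp x i := by
  unfold amp
  split_ifs
  · exact continuous_clamp.comp (continuous_apply _)
  · exact continuous_const

theorem summable_amp (x : ℕ → ℝ) (g : GG) : Summable fun i => |amp (x + iota g) i - amp x i| := by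
  have hg : Summable fun i => ‖g i‖ := by
    have := (lp.memℓp g).summable (by norm_num)
    simpa using this
  have hinj : Function.Injective (fun k : ℕ => 2 * k) := fun a b h => by
    simp only at h; omega
  have h1 : Summable fun k => |amp (x + iota g) (2 * k) - amp x (2 * k)| := by
    refine Summable.of_nonneg_of_le (fun k => abs_nonneg _) (fun k => ?_) hg
    rw [amp_even, amp_even]
    refine (abs_clamp_sub_le _ _).trans ?_
    simp [iota_apply]
  refine (hinj.summable_iff ?_).1 h1
  intro i hi
  have : i % 2 ≠ 0 := by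
    intro h
    apply hi
    exact ⟨i / 2, by show 2 * (i / 2) = i; omega⟩
  simp [amp, this]

section

variable {α : UnitAddCircle} {q n : ℕ → ℕ} {C : ℝ} (hd : LData α q n C)

theorem residual_near (s : ℕ → ℕ) (hs : ∀ m, m ≤ s m) (c : ℝ) :
    {x : ℕ → ℝ | ∀ m : ℕ, ∃ k ≥ m, |x (s k) - c| < 1 / ((m : ℝ) + 1)} ∈ residual (ℕ → ℝ) := by
  have : {x : ℕ → ℝ | ∀ m : ℕ, ∃ k ≥ m, |x (s k) - c| < 1 / ((m : ℝ) + 1)} =
      ⋂ m : ℕ, {x : ℕ → ℝ | ∃ k ≥ m, |x (s k) - c| < 1 / ((m : ℝ) + 1)} := by
    ext x; simp
  rw [this, countable_iInter_mem]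
  intro m
  apply residual_of_dense_open
  · have h2 : {x : ℕ → ℝ | ∃ k ≥ m, |x (s k) - c| < 1 / ((m : ℝ) + 1)} =
        ⋃ k, ⋃ (_ : k ≥ m), {x : ℕ → ℝ | |x (s k) - c| < 1 / ((m : ℝ) + 1)} := by
      ext x; simp
    rw [h2]
    refine isOpen_iUnion fun k => isOpen_iUnion fun _ => ?_
    exact isOpen_lt (((continuous_apply (s k)).sub continuous_const).abs) continuous_const
  · rw [dense_iff_inter_open]
    intro U hU hUne
    obtain ⟨x, hx⟩ := hUne
    rw [isOpen_pi_iff] at hU
    obtain ⟨I, u, hu, hsub⟩ := hU x hx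
    classical
    obtain ⟨M, hM⟩ : ∃ M, ∀ i ∈ I, i < M := by
      refine ⟨I.sup id + 1, fun i hi => ?_⟩
      have : i ≤ I.sup id := Finset.le_sup (f := id) hi
      omega
    let k := max m M
    refine ⟨Function.update x (s k) c, hsub ?_, k, le_max_left _ _, ?_⟩
    · intro i hi
      have h1 : i < M := hM i hi
      have h2 : M ≤ s k := (le_max_right m M).trans (hs k)
      have h3 : i ≠ s k := by omega
      rw [Function.update_of_ne h3]
      exact (hu i hi).2
    · simp only [Function.update_self, sub_self, abs_zero]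
      positivity

include hd in
/-- No measurable map into binary relations classifies the skew products. -/
theorem no_reduction (F : (ℕ → ℝ) → ℕ → ℕ → Bool) (hF : Measurable F)
    (h : ∀ x y : ℕ → ℝ, MIso (TA α q (amp x)) (TA α q (amp y)) ↔ Rel 0 (F x) (F y)) : False := by
  have hinv : ∀ (x : ℕ → ℝ) (g : GG), Rel 0 (F x) (F (x + iota g)) := by
    intro x g
    rw [← h]
    exact miso_of_summable hd (abs_amp_le x) (abs_amp_le _) (summable_amp x g)
  obtain ⟨Cs, hCs, hmain⟩ := turbulence_main iota denseRange_iota F hF hinv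
  have hE := residual_near id (fun m => le_rfl) 0
  obtain ⟨x, hx1, hx2⟩ := (dense_of_mem_residual (inter_mem hCs hE)).nonempty
  choose s hs1 hs2 using hx2
  have hs1' : ∀ m, m ≤ s m := hs1
  obtain ⟨z, hz1, hz2⟩ := hmain x hx1 _ (residual_near s hs1' 1)
  choose t ht1 ht2 using hz1
  have hiso : MIso (TA α q (amp x)) (TA α q (amp z)) := (h x z).2 hz2
  -- the sequence of times
  let K : ℕ → ℕ := fun j => 2 * s (t j)
  have htt : Tendsto t atTop atTop := tendsto_atTop_mono ht1 tendsto_id
  have hst : Tendsto (fun j => s (t j)) atTop atTop :=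
    (tendsto_atTop_mono hs1' tendsto_id).comp htt
  have hK : Tendsto K atTop atTop :=
    tendsto_atTop_mono (fun j => by show s (t j) ≤ 2 * s (t j); omega) hst
  have hone : Tendsto (fun m : ℕ => 1 / ((m : ℝ) + 1)) atTop (𝓝 0) :=
    tendsto_one_div_add_atTop_nhds_zero_nat
  have hx0 : Tendsto (fun j => x (s (t j))) atTop (𝓝 0) := by
    refine squeeze_zero_norm (fun j => ?_) (hone.comp htt)
    have := (hs2 (t j)).le
    simpa using this
  have hz0 : Tendsto (fun j => z (s (t j))) atTop (𝓝 1) := by
    rw [tendsto_iff_norm_sub_tendsto_zero]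
    refine squeeze_zero (fun j => norm_nonneg _) (fun j => ?_) hone
    exact (ht2 j).le
  have hax : Tendsto (fun j => amp x (K j)) atTop (𝓝 0) := by
    have h1 : ∀ j, amp x (K j) = clamp (x (s (t j))) := fun j => amp_even x _
    simp only [h1]
    have := (continuous_clamp.tendsto 0).comp hx0
    rwa [clamp_zero] at this
  have haz : Tendsto (fun j => amp z (K j)) atTop (𝓝 1) := by
    have h1 : ∀ j, amp z (K j) = clamp (z (s (t j))) := fun j => amp_even z _
    simp only [h1]
    have := (continuous_clamp.tendsto 1).comp hz0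
    rwa [clamp_one] at this
  have hrig := rigid hd (abs_amp_le x) K hK hax
  have hc1 : Continuous fun p : TT => chi (p 1) :=
    continuous_chi.comp (continuous_apply 1)
  have hg : Integrable (fun p : TT => chi (p 1)) nu :=
    hc1.integrable_of_hasCompactSupport (HasCompactSupport.of_compactSpace _)
  have htr := rigid_transfer (measurePreserving_TA hd (abs_amp_le x))
    (measurePreserving_TA hd (abs_amp_le z)) hiso (fun j => n (K j)) hrig
    (fun p => chi (p 1)) hg hc1.stronglyMeasurable
  exact not_rigid hd (abs_amp_le z) K hK haz htr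

include hd in
theorem measurable_TA_amp : Measurable (fun x : ℕ → ℝ => TA α q (amp x)) := by
  rw [measurable_pi_iff]
  intro p
  rw [measurable_pi_iff]
  intro i
  fin_cases i
  · exact measurable_const
  · have hcont : Continuous fun x : ℕ → ℝ => P q (cf α q (amp x) 1) (p 0) := by
      have h0 : Summable fun i => ‖chi (q i • α) - 1‖ := by simpa using hd.smooth 0
      refine continuous_tsum (fun i => ?_) h0 (fun i x => ?_)
      · have h1 : Continuous fun x : ℕ → ℝ => ((amp x i : ℝ) : ℂ) :=
          Complex.continuous_ofReal.comp (continuous_amp i)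
        exact Complex.continuous_re.comp ((h1.mul continuous_const).mul continuous_const)
      · refine (norm_term q _ _ i).trans ?_
        have := norm_cf_le α q (abs_amp_le x) 1 i
        simpa using this
    have h2 : Measurable fun x : ℕ → ℝ =>
        p 1 + ((P q (cf α q (amp x) 1) (p 0) : ℝ) : UnitAddCircle) :=
      (AddCircle.measurable_mk'.comp hcont.measurable).const_add (p 1)
    exact h2

end

end Pool.Agent.Lib.MP_2602dd_lc
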