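import Mathlib
import Pool.Agent.Lib.MP_2602dd_lc.Tor
import Pool.Agent.Lib.MP_2602dd_lc.Mfd

/-!
Uniform bounds for the derivatives of the trigonometric series, and their dependence on the
amplitudes.
-/

set_option autoImplicit false

open Topology Set Filter MeasureTheory
open scoped Manifold ContDiff

namespace Pool.Agent.Lib.MP_2602dd_lc

theorem norm_iteratedFDeriv_P_le (q : ℕ → ℕ) {c : ℕ → ℂ}
    (hc : ∀ m : ℕ, Summable fun i => ‖c i‖ * (q i : ℝ) ^ m) (k : ℕ) (r : ℝ) :
    ‖iteratedFDeriv ℝ k (fun r : ℝ => P q c (r : UnitAddCircle)) r‖ ≤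
      (2 * Real.pi) ^ k * ∑' i, ‖c i‖ * (q i : ℝ) ^ k := by
  have hc0 : Summable fun i => ‖c i‖ := by simpa using hc 0
  have hterm : ∀ (i : ℕ) (r : ℝ), c i * chi (q i • (r : UnitAddCircle)) =
      c i * Complex.exp ((Complex.I * (2 * Real.pi * q i)) * r) := by
    intro i r
    rw [nsmul_coe, chi_coe]
    congr 2
    push_cast
    ring
  have hcd : ∀ i, ContDiff ℝ (⊤ : ℕ∞)
      (fun r : ℝ => c i * Complex.exp ((Complex.I * (2 * Real.pi * q i)) * r)) := by
    intro i
    have h1 : ContDiff ℝ (⊤ : ℕ∞) (fun r : ℝ => (Complex.I * (2 * Real.pi * q i)) * (r : ℂ)) :=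
      contDiff_const.mul Complex.ofRealCLM.contDiff
    exact contDiff_const.mul h1.cexp
  have hbd : ∀ (k i : ℕ) (r : ℝ), ‖iteratedFDeriv ℝ k
      (fun r : ℝ => c i * Complex.exp ((Complex.I * (2 * Real.pi * q i)) * r)) r‖ ≤
      (2 * Real.pi) ^ k * (‖c i‖ * (q i : ℝ) ^ k) := by
    intro k i r
    rw [norm_iteratedFDeriv_eq_norm_iteratedDeriv, iteratedDeriv_expo, norm_mul, norm_mul,
      norm_pow]
    have e1 : ‖Complex.exp ((Complex.I * (2 * Real.pi * q i)) * r)‖ = 1 := by
      rw [Complex.norm_exp]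
      simp
    have e2 : ‖(Complex.I * (2 * Real.pi * q i) : ℂ)‖ = 2 * Real.pi * q i := by
      rw [norm_mul, Complex.norm_I, one_mul, norm_mul, norm_mul]
      simp [abs_of_pos Real.pi_pos]
    rw [e1, e2, mul_one, mul_pow]
    apply le_of_eq
    ring
  have hG : ContDiff ℝ (⊤ : ℕ∞)
      (fun r : ℝ => ∑' i, c i * Complex.exp ((Complex.I * (2 * Real.pi * q i)) * r)) :=
    contDiff_tsum (v := fun k i => (2 * Real.pi) ^ k * (‖c i‖ * (q i : ℝ) ^ k)) hcd
      (fun k _ => (hc k).mul_left _) (fun k i r _ => hbd k i r)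
  have hre : ∀ r : ℝ, P q c (r : UnitAddCircle) =
      (∑' i, c i * Complex.exp ((Complex.I * (2 * Real.pi * q i)) * r)).re := by
    intro r
    have hs : Summable fun i => c i * chi (q i • (r : UnitAddCircle)) := by
      refine Summable.of_norm_bounded hc0 (fun i => ?_)
      rw [norm_mul, norm_chi, mul_one]
    rw [P, ← Complex.re_tsum hs]
    congr 1
    exact tsum_congr fun i => hterm i r
  have heq : (fun r : ℝ => P q c (r : UnitAddCircle)) = Complex.reCLM ∘ fun r : ℝ =>
      (∑' i, c i * Complex.exp ((Complex.I * (2 * Real.pi * q i)) * r)) := by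
    ext r
    exact hre r
  have hfd : iteratedFDeriv ℝ k
      (fun r : ℝ => ∑' i, c i * Complex.exp ((Complex.I * (2 * Real.pi * q i)) * r)) =
      fun r => ∑' i, iteratedFDeriv ℝ k
        (fun r : ℝ => c i * Complex.exp ((Complex.I * (2 * Real.pi * q i)) * r)) r :=
    iteratedFDeriv_tsum (N := (⊤ : ℕ∞))
      (v := fun k i => (2 * Real.pi) ^ k * (‖c i‖ * (q i : ℝ) ^ k)) hcd
      (fun k _ => (hc k).mul_left _) (fun k i r _ => hbd k i r) le_top
  rw [heq, ContinuousLinearMap.iteratedFDeriv_comp_left Complex.reCLM (hG.contDiffAt)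
    (mod_cast le_top)]
  refine (ContinuousLinearMap.norm_compContinuousMultilinearMap_le _ _).trans ?_
  rw [Complex.reCLM_norm, one_mul, hfd]
  rw [← tsum_mul_left]
  exact tsum_of_norm_bounded ((hc k).mul_left _).hasSum (fun i => hbd k i r)

/-- The coordinate projection of the plane. -/
noncomputable def pr (i : Fin 2) : E2 →L[ℝ] ℝ := EuclideanSpace.proj (𝕜 := ℝ) i

theorem norm_pr_le (i : Fin 2) : ‖pr i‖ ≤ 1 := by
  refine ContinuousLinearMap.opNorm_le_bound _ zero_le_one fun y => ?_
  rw [one_mul]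
  exact PiLp.norm_apply_le y i

theorem norm_iteratedFDeriv_P_comp_le (q : ℕ → ℕ) {c : ℕ → ℂ}
    (hc : ∀ m : ℕ, Summable fun i => ‖c i‖ * (q i : ℝ) ^ m) (k : ℕ) (y : E2) :
    ‖iteratedFDeriv ℝ k (fun y : E2 => P q c ((y 0 : ℝ) : UnitAddCircle)) y‖ ≤
      (2 * Real.pi) ^ k * ∑' i, ‖c i‖ * (q i : ℝ) ^ k := by
  have h1 : (fun y : E2 => P q c ((y 0 : ℝ) : UnitAddCircle)) =
      (fun r : ℝ => P q c (r : UnitAddCircle)) ∘ pr 0 := rfl
  rw [h1, (pr 0).iteratedFDeriv_comp_right (contDiff_P q hc) y (i := k) (mod_cast le_top)]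
  refine (ContinuousMultilinearMap.norm_compContinuousLinearMap_le _ _).trans ?_
  refine le_trans (mul_le_of_le_one_right (norm_nonneg _) ?_) (norm_iteratedFDeriv_P_le q hc k _)
  exact Finset.prod_le_one (fun _ _ => norm_nonneg _) (fun _ _ => norm_pr_le 0)

section

variable {α : UnitAddCircle} {q n : ℕ → ℕ} {C : ℝ} (hd : LData α q n C)

theorem cf_one_sub (a b : ℕ → ℝ) (i : ℕ) :
    ‖cf α q a 1 i - cf α q b 1 i‖ = |a i - b i| * ‖chi (q i • α) - 1‖ := by
  have : cf α q a 1 i - cf α q b 1 i = ((a i - b i : ℝ) : ℂ) * (chi (q i • α) - 1) := by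
    simp only [cf, one_smul]
    push_cast
    ring
  rw [this, norm_mul, Complex.norm_real, Real.norm_eq_abs]

include hd in
/-- The derivatives of the difference of two series are small if the amplitudes are close. -/
theorem eventually_close (x : ℕ → ℝ) (k : ℕ) {ε : ℝ} (hε : 0 < ε) :
    ∀ᶠ z in 𝓝 x, ∀ j ≤ k, ∀ y : E2,
      ‖iteratedFDeriv ℝ j (fun y : E2 => P q (fun i => cf α q (amp z) 1 i - cf α q (amp x) 1 i)
        ((y 0 : ℝ) : UnitAddCircle)) y‖ < ε := by
  have hsum : ∀ (z : ℕ → ℝ) (m : ℕ), Summable fun i =>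
      ‖cf α q (amp z) 1 i - cf α q (amp x) 1 i‖ * (q i : ℝ) ^ m := by
    intro z m
    refine Summable.of_nonneg_of_le (fun i => by positivity) (fun i => ?_)
      ((hd.smooth m).mul_left 2)
    rw [cf_one_sub, mul_assoc]
    have h1 : |amp z i - amp x i| ≤ 2 := by
      refine (abs_sub _ _).trans ?_
      linarith [abs_amp_le z i, abs_amp_le x i]
    gcongr
  have hcont : ∀ j : ℕ, Continuous fun z : ℕ → ℝ =>
      (2 * Real.pi) ^ j * ∑' i, ‖cf α q (amp z) 1 i - cf α q (amp x) 1 i‖ * (q i : ℝ) ^ j := by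
    intro j
    refine continuous_const.mul ?_
    refine continuous_tsum (fun i => ?_) ((hd.smooth j).mul_left 2) (fun i z => ?_)
    · simp only [cf_one_sub]
      exact (((continuous_amp i).sub continuous_const).abs.mul continuous_const).mul
        continuous_const
    · rw [Real.norm_of_nonneg (by positivity), cf_one_sub, mul_assoc]
      have h1 : |amp z i - amp x i| ≤ 2 := by
        refine (abs_sub _ _).trans ?_
        linarith [abs_amp_le z i, abs_amp_le x i]
      gcongr
  have hev : ∀ᶠ z in 𝓝 x, ∀ j ∈ Finset.range (k + 1),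
      (2 * Real.pi) ^ j * ∑' i, ‖cf α q (amp z) 1 i - cf α q (amp x) 1 i‖ * (q i : ℝ) ^ j < ε := by
    rw [Filter.eventually_all_finset]
    intro j _
    refine (hcont j).continuousAt.eventually_lt continuousAt_const ?_
    simpa using hε
  filter_upwards [hev] with z hz j hj y
  exact (norm_iteratedFDeriv_P_comp_le q (hsum z) j y).trans_lt
    (hz j (Finset.mem_range.2 (by omega)))

end

end Pool.Agent.Lib.MP_2602dd_lc

namespace Pool.Agent.Lib.MP_2602dd_lc

section

variable {α : UnitAddCircle} {q n : ℕ → ℕ} {C : ℝ} (hd : LData α q n C)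

include hd in
/-- Skew products whose amplitudes differ by a summable sequence are conjugate by a measure
preserving homeomorphism. -/
theorem homeo_of_summable {a b : ℕ → ℝ} (ha : ∀ i, |a i| ≤ 1) (hb : ∀ i, |b i| ≤ 1)
    (hab : Summable fun i => |b i - a i|) :
    ∃ φ : TT ≃ₜ TT, MeasurePreserving φ nu nu ∧ ∀ p, φ (TA α q a p) = TA α q b (φ p) := by
  let c : ℕ → ℂ := fun i => ((b i - a i : ℝ) : ℂ)
  have hc : Summable fun i => ‖c i‖ := by
    simpa only [c, Complex.norm_real, Real.norm_eq_abs] using hab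
  have hcc : Continuous (P q c) := continuous_P q hc
  have hm1 : Continuous fun s : UnitAddCircle => ((P q c s : ℝ) : UnitAddCircle) :=
    (AddCircle.continuous_mk' 1).comp hcc
  have hm2 : Continuous fun s : UnitAddCircle => ((-P q c s : ℝ) : UnitAddCircle) :=
    (AddCircle.continuous_mk' 1).comp hcc.neg
  refine ⟨{ toFun := sk 0 (fun s => ((P q c s : ℝ) : UnitAddCircle))
            invFun := sk 0 (fun s => ((-P q c s : ℝ) : UnitAddCircle))
            left_inv := ?_
            right_inv := ?_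
            continuous_toFun := continuous_sk 0 hm1
            continuous_invFun := continuous_sk 0 hm2 }, measurePreserving_sk 0 hm1.measurable, ?_⟩
  · intro p
    ext i
    fin_cases i
    · simp
    · simp [add_assoc]
  · intro p
    ext i
    fin_cases i
    · simp
    · simp [add_assoc]
  · intro p
    show sk 0 (fun s => ((P q c s : ℝ) : UnitAddCircle)) (TA α q a p) =
      TA α q b (sk 0 (fun s => ((P q c s : ℝ) : UnitAddCircle)) p)
    ext i
    fin_cases i
    · simp [TA_def]
    · have hcoc : ∀ s, P q (cf α q a 1) s + P q c (s + α) = P q c s + P q (cf α q b 1) s := by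
        intro s
        have hcα : Summable fun i => ‖c i * chi (q i • α)‖ := by
          simpa only [norm_mul, norm_chi, mul_one] using hc
        rw [P_shift, ← P_add q (summable_cf hd ha 1) hcα, ← P_add q hc (summable_cf hd hb 1)]
        congr 1
        ext i
        simp only [cf, one_smul, c]
        push_cast
        ring
      simp only [TA_def, Fin.mk_one, sk_one, sk_zero, add_zero, add_assoc]
      rw [← AddCircle.coe_add, hcoc, AddCircle.coe_add]

include hd in
/-- Generic pairs of amplitudes give non-isomorphic skew products. -/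
theorem residual_not_miso : ∀ᶠ x in residual (ℕ → ℝ), ∀ᶠ z in residual (ℕ → ℝ),
    ¬ MIso (TA α q (amp x)) (TA α q (amp z)) := by
  filter_upwards [residual_near id (fun m => le_rfl) 0] with x hx2
  choose s hs1 hs2 using hx2
  have hs1' : ∀ m, m ≤ s m := hs1
  filter_upwards [residual_near s hs1' 1] with z hz1 hiso
  choose t ht1 ht2 using hz1
  let K : ℕ → ℕ := fun j => 2 * s (t j)
  have htt : Tendsto t atTop atTop := tendsto_atTop_mono ht1 tendsto_id
  have hst : Tendsto (fun j => s (t j)) atTop atTop :=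
    (tendsto_atTop_mono hs1' tendsto_id).comp htt
  have hK : Tendsto K atTop atTop :=
    tendsto_atTop_mono (fun j => by show s (t j) ≤ 2 * s (t j); omega) hst
  have hone : Tendsto (fun m : ℕ => 1 / ((m : ℝ) + 1)) atTop (𝓝 0) :=
    tendsto_one_div_add_atTop_nhds_zero_nat
  have hx0 : Tendsto (fun j => x (s (t j))) atTop (𝓝 0) := by
    refine squeeze_zero_norm (fun j => ?_) (hone.comp htt)
    have := (hs2 (t j)).le
    simpa using this
  have hz0 : Tendsto (fun j => z (s (t j))) atTop (𝓝 1) := by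
    rw [tendsto_iff_norm_sub_tendsto_zero]
    refine squeeze_zero (fun j => norm_nonneg _) (fun j => ?_) hone
    exact (ht2 j).le
  have hax : Tendsto (fun j => amp x (K j)) atTop (𝓝 0) := by
    have h1 : ∀ j, amp x (K j) = clamp (x (s (t j))) := fun j => amp_even x _
    simp only [h1]
    have := (continuous_clamp.tendsto 0).comp hx0
    rwa [clamp_zero] at this
  have haz : Tendsto (fun j => amp z (K j)) atTop (𝓝 1) := by
    have h1 : ∀ j, amp z (K j) = clamp (z (s (t j))) := fun j => amp_even z _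
    simp only [h1]
    have := (continuous_clamp.tendsto 1).comp hz0
    rwa [clamp_one] at this
  have hrig := rigid hd (abs_amp_le x) K hK hax
  have hc1 : Continuous fun p : TT => chi (p 1) :=
    continuous_chi.comp (continuous_apply 1)
  have hg : Integrable (fun p : TT => chi (p 1)) nu :=
    hc1.integrable_of_hasCompactSupport (HasCompactSupport.of_compactSpace _)
  have htr := rigid_transfer (measurePreserving_TA hd (abs_amp_le x))
    (measurePreserving_TA hd (abs_amp_le z)) hiso (fun j => n (K j)) hrig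
    (fun p => chi (p 1)) hg hc1.stronglyMeasurable
  exact not_rigid hd (abs_amp_le z) K hK haz htr

include hd in
/-- A Borel assignment of relations which is invariant under `ℓ¹`-equivalence of the parameters
does not separate the isomorphism classes. -/
theorem no_complete_invariant (F : (ℕ → ℝ) → ℕ → ℕ → Bool) (hF : Measurable F)
    (hinv : ∀ (x : ℕ → ℝ) (g : GG), Rel 0 (F x) (F (x + iota g))) :
    ∃ x z : ℕ → ℝ, Rel 0 (F x) (F z) ∧ ¬ MIso (TA α q (amp x)) (TA α q (amp z)) := by
  obtain ⟨Cs, hCs, hmain⟩ := turbulence_main iota denseRange_iota F hF hinv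
  have hE : {x : ℕ → ℝ | ∀ᶠ z in residual (ℕ → ℝ),
    ¬ MIso (TA α q (amp x)) (TA α q (amp z))} ∈ residual (ℕ → ℝ) := residual_not_miso hd
  obtain ⟨x, hx1, hx2⟩ := (dense_of_mem_residual (inter_mem hCs hE)).nonempty
  obtain ⟨z, hz1, hz2⟩ := hmain x hx1 _ hx2
  exact ⟨x, z, hz2, hz1⟩

end

end Pool.Agent.Lib.MP_2602dd_lc
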